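import Mathlib

/-!
# Graph codes: copies, stars, symmetric differences

Helper file of `MP_a43c1c_co.KFourHardest`.
-/

set_option autoImplicit false

namespace Pool.Agent.helper92.K4H

open SimpleGraph

variable {U V W Ω : Type}

/-- `D` is a copy of `H`. -/
def IsCopy (H : SimpleGraph U) (D : SimpleGraph W) : Prop := ∃ ι : U ↪ W, D = H.map ι

/-- No two members (distinct or not) of `F` differ by a copy of `H`. -/
def SCode (H : SimpleGraph U) (F : Set (SimpleGraph W)) : Prop :=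
  ∀ G₁ ∈ F, ∀ G₂ ∈ F, ¬ IsCopy H (symmDiff G₁ G₂)

theorem sd_adj (A B : SimpleGraph W) (a b : W) :
    (symmDiff A B).Adj a b ↔ ((A.Adj a b ∧ ¬ B.Adj a b) ∨ (B.Adj a b ∧ ¬ A.Adj a b)) := by
  simp [symmDiff_def, sup_adj, sdiff_adj]

theorem sd_cancel (A B : SimpleGraph W) : symmDiff (symmDiff A B) B = A := by
  rw [symmDiff_assoc, symmDiff_self, symmDiff_bot]

theorem sd_cancel_left (A B C : SimpleGraph W) :
    symmDiff (symmDiff A B) (symmDiff A C) = symmDiff B C := by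
  rw [symmDiff_comm A B, symmDiff_assoc, ← symmDiff_assoc A A C, symmDiff_self, bot_symmDiff]

theorem sd_inj (A B C : SimpleGraph W) (h : symmDiff A C = symmDiff B C) : A = B := by
  rw [← sd_cancel A C, h, sd_cancel]

theorem comap_sd (f : V → W) (A B : SimpleGraph W) :
    (symmDiff A B).comap f = symmDiff (A.comap f) (B.comap f) := by
  ext a b
  simp only [sd_adj, comap_adj]

theorem map_sd (f : V ↪ W) (A B : SimpleGraph V) :
    (symmDiff A B).map f = symmDiff (A.map f) (B.map f) := by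
  ext a b
  simp only [sd_adj, map_adj]
  constructor
  · rintro ⟨x, y, h, rfl, rfl⟩
    rcases h with ⟨h1, h2⟩ | ⟨h1, h2⟩
    · left
      refine ⟨⟨x, y, h1, rfl, rfl⟩, ?_⟩
      rintro ⟨x', y', h', hx, hy⟩
      rw [f.injective hx, f.injective hy] at h'
      exact h2 h'
    · right
      refine ⟨⟨x, y, h1, rfl, rfl⟩, ?_⟩
      rintro ⟨x', y', h', hx, hy⟩
      rw [f.injective hx, f.injective hy] at h'
      exact h2 h'
  · rintro (⟨⟨x, y, h1, rfl, rfl⟩, h2⟩ | ⟨⟨x, y, h1, rfl, rfl⟩, h2⟩)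
    · exact ⟨x, y, Or.inl ⟨h1, fun h => h2 ⟨x, y, h, rfl, rfl⟩⟩, rfl, rfl⟩
    · exact ⟨x, y, Or.inr ⟨h1, fun h => h2 ⟨x, y, h, rfl, rfl⟩⟩, rfl, rfl⟩

theorem map_map' (f : U ↪ V) (g : V ↪ W) (A : SimpleGraph U) :
    (A.map f).map g = A.map (f.trans g) := by
  ext a b
  simp only [map_adj, Function.Embedding.trans_apply]
  constructor
  · rintro ⟨x, y, ⟨x', y', h, rfl, rfl⟩, rfl, rfl⟩
    exact ⟨x', y', h, rfl, rfl⟩
  · rintro ⟨x', y', h, rfl, rfl⟩
    exact ⟨f x', f y', ⟨x', y', h, rfl, rfl⟩, rfl, rfl⟩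

theorem comap_equiv (e : V ≃ W) (ι : U ↪ W) (A : SimpleGraph U) :
    (A.map ι).comap e = A.map (ι.trans e.symm.toEmbedding) := by
  ext a b
  simp only [comap_adj, map_adj, Function.Embedding.trans_apply, Equiv.coe_toEmbedding]
  constructor
  · rintro ⟨x, y, h, hx, hy⟩
    exact ⟨x, y, h, by rw [hx, Equiv.symm_apply_apply], by rw [hy, Equiv.symm_apply_apply]⟩
  · rintro ⟨x, y, h, hx, hy⟩
    exact ⟨x, y, h, by rw [← hx, Equiv.apply_symm_apply], by rw [← hy, Equiv.apply_symm_apply]⟩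

/-- The star with centre `t` and leaves `N`. -/
def st (t : W) (N : Set W) : SimpleGraph W := fromRel fun a b => a = t ∧ b ∈ N

theorem st_adj (t : W) (N : Set W) (a b : W) :
    (st t N).Adj a b ↔ a ≠ b ∧ ((a = t ∧ b ∈ N) ∨ (b = t ∧ a ∈ N)) := by
  unfold st
  rw [fromRel_adj]

theorem map_st (f : V ↪ W) (t : V) (N : Set V) : (st t N).map f = st (f t) (f '' N) := by
  ext a b
  simp only [map_adj, st_adj]
  constructor
  · rintro ⟨x, y, ⟨hne, h⟩, rfl, rfl⟩
    refine ⟨fun h' => hne (f.injective h'), ?_⟩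
    rcases h with ⟨rfl, h⟩ | ⟨rfl, h⟩
    · exact Or.inl ⟨rfl, y, h, rfl⟩
    · exact Or.inr ⟨rfl, x, h, rfl⟩
  · rintro ⟨hne, ⟨rfl, z, hz, rfl⟩ | ⟨rfl, z, hz, rfl⟩⟩
    · exact ⟨t, z, ⟨fun h => hne (by rw [h]), Or.inl ⟨rfl, hz⟩⟩, rfl, rfl⟩
    · exact ⟨z, t, ⟨fun h => hne (by rw [h]), Or.inr ⟨rfl, hz⟩⟩, rfl, rfl⟩

theorem comap_st (τ : V ≃ W) (t : W) (N : Set W) :
    (st t N).comap τ = st (τ.symm t) (τ ⁻¹' N) := by
  ext a b
  simp only [comap_adj, st_adj, Set.mem_preimage, ne_eq, EmbeddingLike.apply_eq_iff_eq,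
    Equiv.eq_symm_apply]

/-- The neighbours of the vertex `none`. -/
def nbs (H : SimpleGraph (Option U)) : Set U := {b | H.Adj none (some b)}

/-- The graph obtained from `H` by merging the vertex `none` into the vertex `u`; double edges
cancel. -/
def fold (H : SimpleGraph (Option U)) (u : U) : SimpleGraph U :=
  symmDiff (H.comap some) (st u (nbs H))

/-- Decomposition of a graph on `Option U`. -/
theorem map_option (H : SimpleGraph (Option U)) (ι : U ↪ W) (w : W) (hw : w ∉ Set.range ι) :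
    H.map (ι.optionElim w hw) = symmDiff ((H.comap some).map ι) (st w (ι '' nbs H)) := by
  ext a b
  rw [sd_adj]
  simp only [map_adj, st_adj, comap_adj]
  have key : ∀ x y : Option U, H.Adj x y → (ι.optionElim w hw) x = a →
      (ι.optionElim w hw) y = b →
      (((∃ u' v', H.Adj (some u') (some v') ∧ ι u' = a ∧ ι v' = b) ∧
        ¬(a ≠ b ∧ (a = w ∧ b ∈ ι '' nbs H ∨ b = w ∧ a ∈ ι '' nbs H))) ∨
      ((a ≠ b ∧ (a = w ∧ b ∈ ι '' nbs H ∨ b = w ∧ a ∈ ι '' nbs H)) ∧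
        ¬∃ u' v', H.Adj (some u') (some v') ∧ ι u' = a ∧ ι v' = b)) := by
    rintro (_ | x) (_ | y) h hx hy
    · exact absurd rfl h.ne
    · right
      have ha : w = a := hx
      have hb : ι y = b := hy
      refine ⟨⟨?_, Or.inl ⟨ha.symm, y, h, hb⟩⟩, ?_⟩
      · rw [← ha, ← hb]
        exact fun h' => hw ⟨y, h'.symm⟩
      · rintro ⟨x', y', -, hx', -⟩
        exact hw ⟨x', by rw [hx', ha]⟩
    · right
      have ha : ι x = a := hx
      have hb : w = b := hy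
      refine ⟨⟨?_, Or.inr ⟨hb.symm, x, h.symm, ha⟩⟩, ?_⟩
      · rw [← ha, ← hb]
        exact fun h' => hw ⟨x, h'⟩
      · rintro ⟨x', y', -, -, hy'⟩
        exact hw ⟨y', by rw [hy', hb]⟩
    · left
      have ha : ι x = a := hx
      have hb : ι y = b := hy
      refine ⟨⟨x, y, h, ha, hb⟩, ?_⟩
      rintro ⟨-, ⟨h1, -⟩ | ⟨h1, -⟩⟩
      · exact hw ⟨x, by rw [ha, h1]⟩
      · exact hw ⟨y, by rw [hb, h1]⟩
  constructor
  · rintro ⟨x, y, h, hx, hy⟩
    exact key x y h hx hy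
  · rintro (⟨⟨x, y, h, hx, hy⟩, -⟩ | ⟨⟨hne, ⟨h1, z, hz, hz'⟩ | ⟨h1, z, hz, hz'⟩⟩, -⟩)
    · exact ⟨some x, some y, h, hx, hy⟩
    · exact ⟨none, some z, hz, h1.symm, hz'⟩
    · exact ⟨some z, none, hz.symm, hz', h1.symm⟩

/-- A copy of `H` as a copy of `fold H u` and two stars. -/
theorem map_fold (H : SimpleGraph (Option U)) (u : U) (ι : U ↪ W) (w : W)
    (hw : w ∉ Set.range ι) :
    H.map (ι.optionElim w hw) = symmDiff (symmDiff ((fold H u).map ι) (st (ι u) (ι '' nbs H)))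
      (st w (ι '' nbs H)) := by
  have h1 : (fold H u).map ι =
      symmDiff ((H.comap some).map ι) (st (ι u) (ι '' nbs H)) := by
    unfold fold
    rw [map_sd, map_st]
  rw [map_option, h1, sd_cancel]

end Pool.Agent.helper92.K4H
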