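import Pool.Agent.helper92.K4H.Count

/-!
# From copies of `K₄` to copies of larger complete graphs

Helper file of `MP_a43c1c_co.KFourHardest`.
-/

set_option autoImplicit false

namespace Pool.Agent.helper92.K4H

open SimpleGraph

variable {U A Q E Ω : Type}

section

variable [Fintype A]

open Classical in
/-- The degree modulo `2`. -/
noncomputable def dg (S : SimpleGraph A) (i : A) : ZMod 2 := ∑ j : A, if S.Adj i j then 1 else 0

/-- The relation on the blown up vertex set. -/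
def brel (S : SimpleGraph A) : (A × Q) ⊕ E → (A × Q) ⊕ E → Prop
  | .inl a, .inl b => (a.1 ≠ b.1 ∧ S.Adj a.1 b.1) ∨ (a.1 = b.1 ∧ dg S a.1 = 1)
  | .inl a, .inr _ => dg S a.1 = 1
  | .inr _, .inl b => dg S b.1 = 1
  | .inr _, .inr _ => False

theorem brel_symm (S : SimpleGraph A) (x y : (A × Q) ⊕ E) (h : brel S x y) : brel S y x := by
  rcases x with a | a <;> rcases y with b | b
  · rcases h with ⟨h1, h2⟩ | ⟨h1, h2⟩
    · exact Or.inl ⟨h1.symm, h2.symm⟩
    · exact Or.inr ⟨h1.symm, by rw [← h1]; exact h2⟩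
  · exact h
  · exact h
  · exact h

/-- The blow-up: an edge `i j` is replaced by all edges of the complete graph on the classes of `i`
and `j` and the cone points; edges add up modulo `2`. -/
def blow (Q E : Type) (S : SimpleGraph A) : SimpleGraph ((A × Q) ⊕ E) where
  Adj x y := x ≠ y ∧ brel S x y
  symm := ⟨fun _ _ h => ⟨h.1.symm, brel_symm S _ _ h.2⟩⟩
  loopless := ⟨fun _ h => h.1 rfl⟩

theorem dg_sd (S T : SimpleGraph A) (i : A) : dg (symmDiff S T) i = dg S i + dg T i := by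
  classical
  unfold dg
  rw [← Finset.sum_add_distrib]
  refine Finset.sum_congr rfl fun j _ => ?_
  by_cases h1 : S.Adj i j <;> by_cases h2 : T.Adj i j <;> simp [sd_adj, h1, h2]
  decide

theorem zmod2 (a b : ZMod 2) : a + b = 1 ↔ ((a = 1 ∧ ¬ b = 1) ∨ (b = 1 ∧ ¬ a = 1)) := by
  revert a b
  decide

theorem blow_sd (S T : SimpleGraph A) :
    blow Q E (symmDiff S T) = symmDiff (blow Q E S) (blow Q E T) := by
  ext x y
  rw [sd_adj]
  show (x ≠ y ∧ brel (symmDiff S T) x y) ↔ ((x ≠ y ∧ brel S x y) ∧ ¬ (x ≠ y ∧ brel T x y)) ∨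
    ((x ≠ y ∧ brel T x y) ∧ ¬ (x ≠ y ∧ brel S x y))
  have key : brel (symmDiff S T) x y ↔
      ((brel S x y ∧ ¬ brel T x y) ∨ (brel T x y ∧ ¬ brel S x y)) := by
    rcases x with a | a <;> rcases y with b | b
    · simp only [brel, dg_sd, zmod2, sd_adj]
      tauto
    · simp only [brel, dg_sd, zmod2]
    · simp only [brel, dg_sd, zmod2]
    · simp only [brel]
      tauto
  rw [key]
  tauto

theorem dg_top (ι : Fin 4 ↪ A) (i : A) :
    dg ((⊤ : SimpleGraph (Fin 4)).map ι) i = 1 ↔ i ∈ Set.range ι := by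
  classical
  have h0 : dg ((⊤ : SimpleGraph (Fin 4)).map ι) i = ((Finset.univ.filter fun j =>
      ((⊤ : SimpleGraph (Fin 4)).map ι).Adj i j).card : ZMod 2) := by
    rw [Finset.card_filter]
    push_cast
    unfold dg
    refine Finset.sum_congr rfl fun j _ => ?_
    split_ifs <;> rfl
  rw [h0]
  constructor
  · intro h
    by_contra hi
    have h1 : (Finset.univ.filter fun j => ((⊤ : SimpleGraph (Fin 4)).map ι).Adj i j) = ∅ := by
      rw [Finset.filter_eq_empty_iff]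
      intro j _ hj
      rw [map_adj] at hj
      obtain ⟨a, b, -, ha, -⟩ := hj
      exact hi ⟨a, ha⟩
    rw [h1, Finset.card_empty, Nat.cast_zero] at h
    exact absurd h (by decide)
  · rintro ⟨a, rfl⟩
    have h1 : (Finset.univ.filter fun j => ((⊤ : SimpleGraph (Fin 4)).map ι).Adj (ι a) j) =
        (Finset.univ.erase a).map ι := by
      ext j
      simp only [Finset.mem_filter, Finset.mem_univ, true_and, map_adj, top_adj,
        Finset.mem_map, Finset.mem_erase, and_true]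
      constructor
      · rintro ⟨a', b, hab, ha, hb⟩
        have := ι.injective ha
        subst this
        exact ⟨b, hab.symm, hb⟩
      · rintro ⟨b, hab, hb⟩
        exact ⟨a, b, hab.symm, rfl, hb⟩
    rw [h1, Finset.card_map, Finset.card_erase_of_mem (Finset.mem_univ _), Finset.card_univ,
      Fintype.card_fin]
    decide

/-- The embedding of the blown up vertex sets. -/
def bem (Q E : Type) (ι : Fin 4 ↪ A) : (Fin 4 × Q) ⊕ E ↪ (A × Q) ⊕ E where
  toFun x := Sum.map (fun p : Fin 4 × Q => ((ι p.1, p.2) : A × Q)) id x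
  inj' := by
    apply Function.Injective.sumMap
    · rintro ⟨a, s⟩ ⟨b, t⟩ h
      simp only [Prod.mk.injEq] at h ⊢
      exact ⟨ι.injective h.1, h.2⟩
    · exact Function.injective_id

theorem blow_top [Subsingleton E] (ι : Fin 4 ↪ A) :
    blow Q E ((⊤ : SimpleGraph (Fin 4)).map ι) =
      (⊤ : SimpleGraph ((Fin 4 × Q) ⊕ E)).map (bem Q E ι) := by
  ext x y
  rw [map_adj]
  constructor
  · rintro ⟨hne, h⟩
    rcases x with a | a <;> rcases y with b | b
    · have ha : a.1 ∈ Set.range ι ∧ b.1 ∈ Set.range ι := by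
        rcases h with ⟨h1, h2⟩ | ⟨h1, h2⟩
        · rw [map_adj] at h2
          obtain ⟨a', b', -, ha, hb⟩ := h2
          exact ⟨⟨a', ha⟩, ⟨b', hb⟩⟩
        · rw [dg_top] at h2
          exact ⟨h2, by rw [← h1]; exact h2⟩
      obtain ⟨⟨a', ha⟩, ⟨b', hb⟩⟩ := ha
      refine ⟨.inl (a', a.2), .inl (b', b.2), ?_, ?_, ?_⟩
      · rw [top_adj]
        intro h'
        apply hne
        simp only [Sum.inl.injEq, Prod.mk.injEq] at h'
        rw [Sum.inl.injEq]
        exact Prod.ext (by rw [← ha, ← hb, h'.1]) h'.2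
      · show (Sum.inl (ι a', a.2) : (A × Q) ⊕ E) = Sum.inl a
        rw [ha]
      · show (Sum.inl (ι b', b.2) : (A × Q) ⊕ E) = Sum.inl b
        rw [hb]
    · have h' : dg ((⊤ : SimpleGraph (Fin 4)).map ι) a.1 = 1 := h
      rw [dg_top] at h'
      obtain ⟨a', ha⟩ := h'
      refine ⟨.inl (a', a.2), .inr b, ?_, ?_, rfl⟩
      · rw [top_adj]
        exact Sum.inl_ne_inr
      · show (Sum.inl (ι a', a.2) : (A × Q) ⊕ E) = Sum.inl a
        rw [ha]
    · have h' : dg ((⊤ : SimpleGraph (Fin 4)).map ι) b.1 = 1 := h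
      rw [dg_top] at h'
      obtain ⟨b', hb⟩ := h'
      refine ⟨.inr a, .inl (b', b.2), ?_, rfl, ?_⟩
      · rw [top_adj]
        exact Sum.inr_ne_inl
      · show (Sum.inl (ι b', b.2) : (A × Q) ⊕ E) = Sum.inl b
        rw [hb]
    · exact absurd (congrArg Sum.inr (Subsingleton.elim a b)) hne
  · rintro ⟨x', y', hne, rfl, rfl⟩
    rw [top_adj] at hne
    refine ⟨fun h => hne ((bem Q E ι).injective h), ?_⟩
    rcases x' with ⟨a, s⟩ | a <;> rcases y' with ⟨b, t⟩ | b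
    · show ((ι a ≠ ι b ∧ ((⊤ : SimpleGraph (Fin 4)).map ι).Adj (ι a) (ι b)) ∨
        (ι a = ι b ∧ dg ((⊤ : SimpleGraph (Fin 4)).map ι) (ι a) = 1))
      by_cases hab : a = b
      · right
        rw [hab]
        exact ⟨rfl, (dg_top ι _).2 ⟨b, rfl⟩⟩
      · left
        refine ⟨fun h => hab (ι.injective h), ?_⟩
        rw [map_adj]
        exact ⟨a, b, hab, rfl, rfl⟩
    · exact (dg_top ι _).2 ⟨a, rfl⟩
    · exact (dg_top ι _).2 ⟨b, rfl⟩
    · exact absurd (congrArg Sum.inr (Subsingleton.elim a b)) hne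

end

theorem copy_top {V V' W : Type} (e : V ≃ V') (D : SimpleGraph W)
    (h : IsCopy (⊤ : SimpleGraph V) D) : IsCopy (⊤ : SimpleGraph V') D := by
  obtain ⟨ι, rfl⟩ := h
  refine ⟨e.symm.toEmbedding.trans ι, ?_⟩
  ext a b
  simp only [map_adj, top_adj, Function.Embedding.trans_apply, Equiv.coe_toEmbedding]
  constructor
  · rintro ⟨x, y, hne, rfl, rfl⟩
    exact ⟨e x, e y, fun h => hne (e.injective h), by rw [Equiv.symm_apply_apply],
      by rw [Equiv.symm_apply_apply]⟩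
  · rintro ⟨x, y, hne, rfl, rfl⟩
    exact ⟨e.symm x, e.symm y, fun h => hne (e.symm.injective h), rfl, rfl⟩

theorem copy_blow [Fintype A] [Subsingleton E] {r : ℕ} (j : (A × Q) ⊕ E ↪ Ω)
    (e : (Fin 4 × Q) ⊕ E ≃ Fin r) (S₁ S₂ : SimpleGraph A)
    (h : IsCopy (⊤ : SimpleGraph (Fin 4)) (symmDiff S₁ S₂)) :
    IsCopy (⊤ : SimpleGraph (Fin r))
      (symmDiff ((blow Q E S₁).map j) ((blow Q E S₂).map j)) := by
  obtain ⟨ι, hι⟩ := h
  rw [← map_sd, ← blow_sd, hι, blow_top, map_map']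
  exact copy_top e _ ⟨_, rfl⟩

theorem blow_density [Fintype A] [Finite Ω] [Subsingleton E] {r : ℕ} (j : (A × Q) ⊕ E ↪ Ω)
    (e : (Fin 4 × Q) ⊕ E ≃ Fin r) (F : Set (SimpleGraph Ω))
    (hF : SCode (⊤ : SimpleGraph (Fin r)) F) :
    ∃ C : Set (SimpleGraph A), SCode (⊤ : SimpleGraph (Fin 4)) C ∧
      Nat.card (SimpleGraph A) * F.ncard ≤ Nat.card (SimpleGraph Ω) * C.ncard := by
  obtain ⟨G₀, hG₀⟩ := exists_shift (fun S : SimpleGraph A => (blow Q E S).map j) F
  refine ⟨_, ?_, hG₀⟩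
  intro S₁ h₁ S₂ h₂ hc
  apply hF _ h₁ _ h₂
  rw [sd_cancel_left]
  exact copy_blow j e S₁ S₂ hc

theorem blow_colour [Fintype A] [Subsingleton E] {r R : ℕ} (j : (A × Q) ⊕ E ↪ Ω)
    (e : (Fin 4 × Q) ⊕ E ≃ Fin r) (c : SimpleGraph Ω → Fin R)
    (hc : ∀ G₁ G₂, IsCopy (⊤ : SimpleGraph (Fin r)) (symmDiff G₁ G₂) → c G₁ ≠ c G₂) :
    ∃ c' : SimpleGraph A → Fin R,
      ∀ S₁ S₂, IsCopy (⊤ : SimpleGraph (Fin 4)) (symmDiff S₁ S₂) → c' S₁ ≠ c' S₂ := by
  refine ⟨fun S => c ((blow Q E S).map j), fun S₁ S₂ h => ?_⟩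
  exact hc _ _ (copy_blow j e S₁ S₂ h)

theorem sub_density [Finite A] [Finite Ω] (H : SimpleGraph U) (j : A ↪ Ω)
    (F : Set (SimpleGraph Ω)) (hF : SCode H F) :
    ∃ C : Set (SimpleGraph A), SCode H C ∧
      Nat.card (SimpleGraph A) * F.ncard ≤ Nat.card (SimpleGraph Ω) * C.ncard := by
  obtain ⟨G₀, hG₀⟩ := exists_shift (fun S : SimpleGraph A => S.map j) F
  refine ⟨_, ?_, hG₀⟩
  rintro S₁ h₁ S₂ h₂ ⟨ι, hι⟩
  apply hF _ h₁ _ h₂
  rw [sd_cancel_left, ← map_sd, hι, map_map']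
  exact ⟨_, rfl⟩

end Pool.Agent.helper92.K4H
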