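import Pool.Agent.helper92.K4H.Main

/-!
# Graphs with an even pair of colour classes

Helper file of `MP_a43c1c_co.KFourHardest`.
-/

set_option autoImplicit false

namespace Pool.Agent.helper92.K4H

open SimpleGraph
open scoped Classical

variable {U V W X γ : Type}

/-- The indicator of adjacency. -/
noncomputable def ind (H : SimpleGraph V) (x y : V) : ZMod 2 := if H.Adj x y then 1 else 0

/-- The parity of the number of edges between two colour classes. -/
noncomputable def cl [Fintype V] (H : SimpleGraph V) (c : V → γ) (i j : γ) : ZMod 2 :=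
  ∑ x : V, ∑ y : V, if c x = i ∧ c y = j then ind H x y else 0

theorem fold_adj (H : SimpleGraph (Option U)) (u x y : U) :
    (fold H u).Adj x y ↔ (H.Adj (some x) (some y) ∧
      ¬ (x ≠ y ∧ (x = u ∧ H.Adj none (some y) ∨ y = u ∧ H.Adj none (some x)))) ∨
      ((x ≠ y ∧ (x = u ∧ H.Adj none (some y) ∨ y = u ∧ H.Adj none (some x))) ∧
        ¬ H.Adj (some x) (some y)) := by
  unfold fold
  rw [sd_adj, st_adj]
  rfl

theorem ind_fold (H : SimpleGraph (Option U)) (u : U) (hu : u ∉ nbs H) (x y : U) :
    ind (fold H u) x y = ind H (some x) (some y) + (if x = u then ind H none (some y) else 0) +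
      (if y = u then ind H (some x) none else 0) := by
  have hu' : ¬ H.Adj none (some u) := hu
  have hu'' : ¬ H.Adj (some u) none := fun h => hu' h.symm
  unfold ind
  rw [if_congr (fold_adj H u x y) rfl rfl]
  have hsym : H.Adj (some x) none ↔ H.Adj none (some x) := ⟨fun h => h.symm, fun h => h.symm⟩
  by_cases hx : x = u
  · by_cases hy : y = u
    · subst hx
      subst hy
      simp [hu', hu'']
    · have hxy : x ≠ y := fun h => hy (by rw [← h, hx])
      subst hx
      by_cases h1 : H.Adj (some x) (some y) <;> by_cases h2 : H.Adj none (some y) <;>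
        simp [h1, h2, hy, hxy]
      decide
  · by_cases hy : y = u
    · have hxy : x ≠ y := fun h => hx (by rw [h, hy])
      subst hy
      by_cases h1 : H.Adj (some x) (some y) <;> by_cases h2 : H.Adj none (some x) <;>
        simp [h1, h2, hx, hsym]
      decide
    · simp [hx, hy]

theorem cl_fold [Fintype U] (H : SimpleGraph (Option U)) (u : U) (hu : u ∉ nbs H)
    (c : Option U → γ) (hc : c none = c (some u)) (i j : γ) :
    cl (fold H u) (fun x => c (some x)) i j = cl H c i j := by
  have h0 : ind H none none = 0 := by
    unfold ind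
    rw [if_neg (fun h => h.ne rfl)]
  have hR : cl H c i j = (∑ y : U, if c none = i ∧ c (some y) = j then ind H none (some y) else 0) +
      ((∑ x : U, if c (some x) = i ∧ c none = j then ind H (some x) none else 0) +
      ∑ x : U, ∑ y : U, if c (some x) = i ∧ c (some y) = j then ind H (some x) (some y) else 0) := by
    unfold cl
    rw [Fintype.sum_option, Fintype.sum_option, h0, ite_self, zero_add]
    congr 1
    rw [← Finset.sum_add_distrib]
    refine Finset.sum_congr rfl fun x _ => ?_
    rw [Fintype.sum_option]
  have hL : cl (fold H u) (fun x => c (some x)) i j =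
      (∑ x : U, ∑ y : U, if c (some x) = i ∧ c (some y) = j then ind H (some x) (some y) else 0) +
      (∑ x : U, ∑ y : U, if x = u then
        (if c (some x) = i ∧ c (some y) = j then ind H none (some y) else 0) else 0) +
      (∑ x : U, ∑ y : U, if y = u then
        (if c (some x) = i ∧ c (some y) = j then ind H (some x) none else 0) else 0) := by
    unfold cl
    rw [← Finset.sum_add_distrib, ← Finset.sum_add_distrib]
    refine Finset.sum_congr rfl fun x _ => ?_
    rw [← Finset.sum_add_distrib, ← Finset.sum_add_distrib]
    refine Finset.sum_congr rfl fun y _ => ?_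
    rw [ind_fold H u hu]
    by_cases h : c (some x) = i ∧ c (some y) = j
    · rw [if_pos h, if_pos h, if_pos h, if_pos h]
    · rw [if_neg h, if_neg h, if_neg h, if_neg h, ite_self, ite_self, add_zero, add_zero]
  rw [hR, hL]
  have e1 : (∑ x : U, ∑ y : U, if x = u then
        (if c (some x) = i ∧ c (some y) = j then ind H none (some y) else 0) else 0) =
      ∑ y : U, if c none = i ∧ c (some y) = j then ind H none (some y) else 0 := by
    rw [Finset.sum_comm]
    refine Finset.sum_congr rfl fun y _ => ?_
    rw [Finset.sum_ite_eq' Finset.univ u, if_pos (Finset.mem_univ _), hc]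
  have e2 : (∑ x : U, ∑ y : U, if y = u then
        (if c (some x) = i ∧ c (some y) = j then ind H (some x) none else 0) else 0) =
      ∑ x : U, if c (some x) = i ∧ c none = j then ind H (some x) none else 0 := by
    refine Finset.sum_congr rfl fun x _ => ?_
    rw [Finset.sum_ite_eq' Finset.univ u, if_pos (Finset.mem_univ _), hc]
  rw [e1, e2]
  ring

theorem cl_equiv [Fintype V] [Fintype W] (e : V ≃ W) (H : SimpleGraph V) (c : V → γ) (i j : γ) :
    cl (H.comap e.symm) (fun x => c (e.symm x)) i j = cl H c i j := by
  unfold cl
  refine Fintype.sum_equiv e.symm _ _ fun x => ?_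
  refine Fintype.sum_equiv e.symm _ _ fun y => ?_
  rfl

theorem fold_proper (H : SimpleGraph (Option U)) (u : U) (c : Option U → γ)
    (hc : c none = c (some u)) (hp : ∀ x y, H.Adj x y → c x ≠ c y) (x y : U)
    (h : (fold H u).Adj x y) : c (some x) ≠ c (some y) := by
  rw [fold_adj] at h
  rcases h with ⟨h, -⟩ | ⟨⟨-, ⟨rfl, h⟩ | ⟨rfl, h⟩⟩, -⟩
  · exact hp _ _ h
  · rw [← hc]
    exact hp _ _ h
  · rw [← hc]
    exact (hp _ _ h).symm

theorem main4 (K : SimpleGraph X) : ∀ (k : ℕ) (H : SimpleGraph (Fin k)) (c : Fin k → Fin 4),
    (∀ x y, H.Adj x y → c x ≠ c y) → ∀ i j : Fin 4, i ≠ j → cl H c i j = 0 → Even (ec H) →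
    Pd K k H := by
  intro k
  induction k with
  | zero =>
    intro H c _ i j _ _ hE
    exact main3 K 0 H (by norm_num) hE
  | succ k ih =>
    intro H c hp i j hij hcl hE
    by_cases hk : k + 1 ≤ 3
    · exact main3 K _ H hk hE
    by_cases hinj : Function.Injective c
    · have hk4 : k + 1 ≤ 4 := by
        have := Fintype.card_le_of_injective c hinj
        rw [Fintype.card_fin, Fintype.card_fin] at this
        exact this
      have hk3 : k = 3 := by omega
      subst hk3
      have hsurj : Function.Surjective c := Finite.surjective_of_injective hinj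
      obtain ⟨v, hv⟩ := hsurj i
      obtain ⟨w, hw⟩ := hsurj j
      have hvw : v ≠ w := fun h => hij (by rw [← hv, ← hw, h])
      have hadj : ¬ H.Adj v w := by
        intro h
        have h1 : cl H c i j = 1 := by
          unfold cl
          rw [Finset.sum_eq_single v, Finset.sum_eq_single w]
          · rw [if_pos ⟨hv, hw⟩]
            unfold ind
            rw [if_pos h]
          · intro y _ hy
            rw [if_neg]
            rintro ⟨-, h2⟩
            exact hy (hinj (by rw [h2, hw]))
          · intro h
            exact absurd (Finset.mem_univ _) h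
          · intro x _ hx
            refine Finset.sum_eq_zero fun y _ => ?_
            rw [if_neg]
            rintro ⟨h2, -⟩
            exact hx (hinj (by rw [h2, hv]))
          · intro h
            exact absurd (Finset.mem_univ _) h
        rw [h1] at hcl
        exact absurd hcl (by decide)
      obtain ⟨e, u, -, -, hun⟩ := merge H v w hvw hadj
      have hE' : Even (ec (fold (H.comap e.symm) u)) := by
        rw [ec_fold _ _ hun, ec_equiv]
        exact hE
      exact Pd_iso _ _ e _ (Pd_fold _ 3 _ u hun (main3 K 3 _ (by omega) hE'))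
    · obtain ⟨v, w, hcvw, hvw⟩ : ∃ v w, c v = c w ∧ v ≠ w := by
        unfold Function.Injective at hinj
        push Not at hinj
        exact hinj
      have hadj : ¬ H.Adj v w := fun h => hp v w h hcvw
      obtain ⟨e, u, hv, hw, hun⟩ := merge H v w hvw hadj
      have hE' : Even (ec (fold (H.comap e.symm) u)) := by
        rw [ec_fold _ _ hun, ec_equiv]
        exact hE
      have hw' : e.symm (some u) = w := by rw [← hw, e.symm_apply_apply]
      have hcu : (fun x => c (e.symm x)) none = (fun x => c (e.symm x)) (some u) := by
        show c (e.symm none) = c (e.symm (some u))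
        rw [hv, hw', hcvw]
      have hp' : ∀ x y, (H.comap e.symm).Adj x y → (fun x => c (e.symm x)) x ≠
          (fun x => c (e.symm x)) y := fun x y h => hp _ _ h
      refine Pd_iso _ _ e _ (Pd_fold _ k _ u hun (ih _ (fun x => c (e.symm (some x))) ?_ i j hij
        ?_ hE'))
      · exact fun x y h => fold_proper (H.comap e.symm) u (fun x => c (e.symm x)) hcu hp' x y h
      · have h2 := cl_fold (H.comap e.symm) u hun (fun x => c (e.symm x)) hcu i j
        rw [cl_equiv] at h2
        rw [← hcl, ← h2]

theorem cl_ncard [Fintype V] (H : SimpleGraph V) (c : V → γ) (i j : γ) :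
    cl H c i j = (({p : V × V | c p.1 = i ∧ c p.2 = j ∧ H.Adj p.1 p.2}.ncard : ℕ) : ZMod 2) := by
  have h : {p : V × V | c p.1 = i ∧ c p.2 = j ∧ H.Adj p.1 p.2} =
      ((Finset.univ.filter fun p : V × V => c p.1 = i ∧ c p.2 = j ∧ H.Adj p.1 p.2 :
        Finset (V × V)) : Set (V × V)) := by
    ext p
    simp
  rw [h, Set.ncard_coe_finset, Finset.card_filter]
  push_cast
  rw [Fintype.sum_prod_type]
  unfold cl ind
  refine Finset.sum_congr rfl fun x _ => Finset.sum_congr rfl fun y _ => ?_
  by_cases h1 : c x = i <;> by_cases h2 : c y = j <;> by_cases h3 : H.Adj x y <;>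
    simp [h1, h2, h3]

end Pool.Agent.helper92.K4H
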