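import Pool.Agent.helper92.K4H.Basic

/-!
# Counting lemmas

Helper file of `MP_a43c1c_co.KFourHardest`.
-/

set_option autoImplicit false

namespace Pool.Agent.helper92.K4H

open SimpleGraph

section gen

variable {E X : Type} [Finite E] [Finite X]

theorem ncard_prod [Fintype E] (P : Set (E × X)) :
    P.ncard = ∑ e : E, {x | (e, x) ∈ P}.ncard := by
  classical
  letI : Fintype X := Fintype.ofFinite X
  have h1 : P.ncard = (Finset.univ.filter (fun p : E × X => p ∈ P)).card := by
    rw [← Set.ncard_coe_finset]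
    congr 1
    ext p
    simp
  have h2 : ∀ e : E, {x | (e, x) ∈ P}.ncard =
      (Finset.univ.filter (fun x : X => (e, x) ∈ P)).card := by
    intro e
    rw [← Set.ncard_coe_finset]
    congr 1
    ext x
    simp
  rw [h1, Finset.card_eq_sum_card_fiberwise (f := Prod.fst) (t := Finset.univ)
    (fun x _ => Finset.mem_coe.2 (Finset.mem_univ _))]
  refine Finset.sum_congr rfl fun e _ => ?_
  rw [h2]
  refine Finset.card_bij (fun p _ => p.2) ?_ ?_ ?_
  · rintro ⟨a, b⟩ hp
    simp only [Finset.mem_filter, Finset.mem_univ, true_and] at hp ⊢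
    rw [← hp.2]
    exact hp.1
  · rintro ⟨a, b⟩ hp ⟨a', b'⟩ hp' h
    simp only [Finset.mem_filter, Finset.mem_univ, true_and] at hp hp'
    have h' : b = b' := h
    rw [h', hp.2, ← hp'.2]
  · intro x hx
    simp only [Finset.mem_filter, Finset.mem_univ, true_and] at hx
    exact ⟨(e, x), by simpa using hx, rfl⟩

theorem fib_le (P : Set (E × X)) (K L : ℕ) (h : K * P.ncard < (L + 1) * Nat.card E) :
    ∃ e, K * {x | (e, x) ∈ P}.ncard ≤ L := by
  classical
  letI : Fintype E := Fintype.ofFinite E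
  by_contra hcon
  push Not at hcon
  rw [ncard_prod, Finset.mul_sum, Nat.card_eq_fintype_card] at h
  have h1 : ∑ e : E, (L + 1) ≤ ∑ e : E, K * {x | (e, x) ∈ P}.ncard :=
    Finset.sum_le_sum fun e _ => hcon e
  rw [Finset.sum_const, Finset.card_univ, smul_eq_mul, mul_comm] at h1
  omega

theorem fib_ge [Nonempty E] (P : Set (E × X)) :
    ∃ e, P.ncard ≤ Nat.card E * {x | (e, x) ∈ P}.ncard := by
  classical
  letI : Fintype E := Fintype.ofFinite E
  by_contra hcon
  push Not at hcon
  have h1 : ∑ e : E, Nat.card E * {x | (e, x) ∈ P}.ncard < ∑ e : E, P.ncard :=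
    Finset.sum_lt_sum_of_nonempty Finset.univ_nonempty fun e _ => hcon e
  rw [← Finset.mul_sum, ← ncard_prod, Finset.sum_const, Finset.card_univ, smul_eq_mul,
    Nat.card_eq_fintype_card] at h1
  exact lt_irrefl _ h1

theorem ncard_iUnion_le' {T : Type} [Finite T] (P : T → Set X) (m : ℕ)
    (h : ∀ t, (P t).ncard ≤ m) : {x | ∃ t, x ∈ P t}.ncard ≤ Nat.card T * m := by
  classical
  letI : Fintype T := Fintype.ofFinite T
  letI : Fintype X := Fintype.ofFinite X
  have h1 : {x | ∃ t, x ∈ P t} =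
      ((Finset.univ.biUnion fun t : T => Finset.univ.filter fun x => x ∈ P t : Finset X) :
        Set X) := by
    ext x
    simp
  rw [h1, Set.ncard_coe_finset]
  refine Finset.card_biUnion_le.trans ?_
  have h2 : ∀ t ∈ (Finset.univ : Finset T), (Finset.univ.filter fun x => x ∈ P t).card ≤ m := by
    intro t _
    have h3 : (P t).ncard = (Finset.univ.filter fun x => x ∈ P t).card := by
      rw [← Set.ncard_coe_finset]
      congr 1
      ext x
      simp
    rw [← h3]
    exact h t
  refine (Finset.sum_le_sum h2).trans ?_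
  rw [Finset.sum_const, Finset.card_univ, smul_eq_mul, Nat.card_eq_fintype_card]

theorem ncard_disj_le {T : Type} [Finite T] (P : T → Set X) (m : ℕ)
    (hd : ∀ t t', t ≠ t' → ∀ x, x ∈ P t → x ∉ P t') (h : ∀ t, m ≤ (P t).ncard) :
    Nat.card T * m ≤ Nat.card X := by
  classical
  letI : Fintype T := Fintype.ofFinite T
  letI : Fintype X := Fintype.ofFinite X
  have h3 : ∀ t, (P t).ncard = (Finset.univ.filter fun x => x ∈ P t).card := by
    intro t
    rw [← Set.ncard_coe_finset]
    congr 1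
    ext x
    simp
  have h1 : (Finset.univ.biUnion fun t : T => Finset.univ.filter fun x => x ∈ P t).card ≤
      Fintype.card X := Finset.card_le_univ _
  rw [Finset.card_biUnion] at h1
  · have h2 : ∑ t : T, m ≤ ∑ t : T, (Finset.univ.filter fun x => x ∈ P t).card :=
      Finset.sum_le_sum fun t _ => by rw [← h3]; exact h t
    rw [Finset.sum_const, Finset.card_univ, smul_eq_mul] at h2
    rw [Nat.card_eq_fintype_card, Nat.card_eq_fintype_card]
    exact h2.trans h1
  · intro t _ t' _ hne
    rw [Function.onFun, Finset.disjoint_left]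
    intro x hx hx'
    simp only [Finset.mem_filter, Finset.mem_univ, true_and] at hx hx'
    exact hd t t' hne x hx hx'

end gen

section graphs

variable {A W : Type} [Finite A] [Finite W]

/-- The number of pairs `(G₀, S)` with `G₀ + φ S` in `X`. -/
theorem ncard_shift (φ : SimpleGraph A → SimpleGraph W) (X : Set (SimpleGraph W)) :
    {p : SimpleGraph W × SimpleGraph A | symmDiff p.1 (φ p.2) ∈ X}.ncard =
      Nat.card (SimpleGraph A) * X.ncard := by
  classical
  letI : Fintype (SimpleGraph A) := Fintype.ofFinite _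
  have h1 : {p : SimpleGraph W × SimpleGraph A | symmDiff p.1 (φ p.2) ∈ X}.ncard =
      {p : SimpleGraph A × SimpleGraph W | symmDiff p.2 (φ p.1) ∈ X}.ncard := by
    refine Set.ncard_congr (fun p _ => (p.2, p.1)) (fun p hp => hp) ?_ ?_
    · rintro ⟨a, b⟩ ⟨a', b'⟩ _ _ h
      simp only [Prod.mk.injEq] at h ⊢
      exact ⟨h.2, h.1⟩
    · rintro ⟨a, b⟩ h
      exact ⟨(b, a), h, rfl⟩
  rw [h1, ncard_prod]
  have h2 : ∀ S : SimpleGraph A, {x | (S, x) ∈ {p : SimpleGraph A × SimpleGraph W |
      symmDiff p.2 (φ p.1) ∈ X}}.ncard = X.ncard := by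
    intro S
    refine Set.ncard_congr (fun G _ => symmDiff G (φ S)) (fun G hG => hG) ?_ ?_
    · intro G G' _ _ h
      exact sd_inj _ _ _ h
    · intro G hG
      refine ⟨symmDiff G (φ S), ?_, sd_cancel _ _⟩
      show symmDiff (symmDiff G (φ S)) (φ S) ∈ X
      rw [sd_cancel]
      exact hG
  rw [Finset.sum_congr rfl fun S _ => h2 S, Finset.sum_const, Finset.card_univ, smul_eq_mul,
    Nat.card_eq_fintype_card]

theorem exists_shift (φ : SimpleGraph A → SimpleGraph W) (X : Set (SimpleGraph W)) :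
    ∃ G₀ : SimpleGraph W, Nat.card (SimpleGraph A) * X.ncard ≤
      Nat.card (SimpleGraph W) * {S : SimpleGraph A | symmDiff G₀ (φ S) ∈ X}.ncard := by
  obtain ⟨G₀, h⟩ := fib_ge {p : SimpleGraph W × SimpleGraph A | symmDiff p.1 (φ p.2) ∈ X}
  rw [ncard_shift] at h
  exact ⟨G₀, h⟩

theorem exists_shift_empty (φ : SimpleGraph A → SimpleGraph W) (X : Set (SimpleGraph W))
    (h : Nat.card (SimpleGraph A) * X.ncard < Nat.card (SimpleGraph W)) :
    ∃ G₀ : SimpleGraph W, ∀ S : SimpleGraph A, symmDiff G₀ (φ S) ∉ X := by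
  obtain ⟨G₀, h1⟩ := fib_le {p : SimpleGraph W × SimpleGraph A | symmDiff p.1 (φ p.2) ∈ X} 1 0
    (by rw [ncard_shift, one_mul, zero_add, one_mul]; exact h)
  refine ⟨G₀, fun S hS => ?_⟩
  have h2 : {S : SimpleGraph A | symmDiff G₀ (φ S) ∈ X}.ncard = 0 := by
    have : 1 * {x | (G₀, x) ∈ {p : SimpleGraph W × SimpleGraph A |
      symmDiff p.1 (φ p.2) ∈ X}}.ncard ≤ 0 := h1
    simpa using this
  rw [Set.ncard_eq_zero (Set.toFinite _)] at h2
  have : S ∈ {S : SimpleGraph A | symmDiff G₀ (φ S) ∈ X} := hS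
  rw [h2] at this
  exact this

end graphs

end Pool.Agent.helper92.K4H
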