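import Pool.Agent.helper92.K4H.Colour

/-!
# Densities of codes

Helper file of `MP_a43c1c_co.KFourHardest`.
-/

set_option autoImplicit false

namespace Pool.Agent.helper92.K4H

open SimpleGraph

/-- Graphs as sets of pairs. -/
noncomputable def graphEquiv (V : Type) :
    SimpleGraph V ≃ Set {e : Sym2 V // ¬ e.IsDiag} where
  toFun G := {e | e.1 ∈ G.edgeSet}
  invFun s := fromEdgeSet (Subtype.val '' s)
  left_inv G := by
    ext a b
    rw [fromEdgeSet_adj]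
    constructor
    · rintro ⟨⟨e, he, h⟩, -⟩
      have he' : e.1 ∈ G.edgeSet := he
      rw [h] at he'
      exact he'
    · intro h
      refine ⟨⟨⟨s(a, b), ?_⟩, h, rfl⟩, h.ne⟩
      rw [Sym2.mk_isDiag_iff]
      exact h.ne
  right_inv s := by
    ext e
    obtain ⟨e, he⟩ := e
    induction e using Sym2.ind with
    | _ a b =>
      rw [Sym2.mk_isDiag_iff] at he
      show s(a, b) ∈ (fromEdgeSet (Subtype.val '' s)).edgeSet ↔ _
      rw [mem_edgeSet, fromEdgeSet_adj]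
      constructor
      · rintro ⟨⟨e', he', h⟩, -⟩
        have : e' = ⟨s(a, b), by rw [Sym2.mk_isDiag_iff]; exact he⟩ := Subtype.ext h
        rw [← this]
        exact he'
      · intro h
        exact ⟨⟨_, h, rfl⟩, he⟩

theorem card_graphs (n : ℕ) : Nat.card (SimpleGraph (Fin n)) = 2 ^ (n.choose 2) := by
  classical
  rw [Nat.card_congr (graphEquiv (Fin n)), Nat.card_eq_fintype_card, Fintype.card_set,
    Sym2.card_subtype_not_diag, Fintype.card_fin]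

theorem bddAbove_card {n : ℕ} (P : Set (SimpleGraph (Fin n)) → Prop) :
    BddAbove {m : ℕ | ∃ F : Set (SimpleGraph (Fin n)), P F ∧ F.ncard = m} := by
  refine ⟨Nat.card (SimpleGraph (Fin n)), ?_⟩
  rintro m ⟨F, -, rfl⟩
  exact Set.ncard_le_card F

theorem dens_le {n : ℕ} (P : Set (SimpleGraph (Fin n)) → Prop) (h0 : P ∅) (b : ℝ)
    (hb : ∀ F, P F → (F.ncard : ℝ) / Nat.card (SimpleGraph (Fin n)) ≤ b) :
    ((sSup {m : ℕ | ∃ F : Set (SimpleGraph (Fin n)), P F ∧ F.ncard = m} : ℕ) : ℝ) /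
      2 ^ (n.choose 2) ≤ b := by
  obtain ⟨F, hF, h⟩ := Nat.sSup_mem (s := {m : ℕ | ∃ F : Set (SimpleGraph (Fin n)),
    P F ∧ F.ncard = m}) ⟨_, ∅, h0, rfl⟩ (bddAbove_card P)
  rw [← h]
  have h1 := hb F hF
  rw [card_graphs] at h1
  push_cast at h1
  exact h1

theorem le_dens {n : ℕ} (P : Set (SimpleGraph (Fin n)) → Prop) (F : Set (SimpleGraph (Fin n)))
    (hF : P F) : (F.ncard : ℝ) / Nat.card (SimpleGraph (Fin n)) ≤
      ((sSup {m : ℕ | ∃ F : Set (SimpleGraph (Fin n)), P F ∧ F.ncard = m} : ℕ) : ℝ) /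
      2 ^ (n.choose 2) := by
  rw [card_graphs]
  push_cast
  have h : F.ncard ≤ sSup {m : ℕ | ∃ F : Set (SimpleGraph (Fin n)), P F ∧ F.ncard = m} :=
    le_csSup (bddAbove_card P) ⟨F, hF, rfl⟩
  have h' : (F.ncard : ℝ) ≤
      ((sSup {m : ℕ | ∃ F : Set (SimpleGraph (Fin n)), P F ∧ F.ncard = m} : ℕ) : ℝ) := by
    exact_mod_cast h
  gcongr

theorem map_ne_bot {k n : ℕ} (H : SimpleGraph (Fin k)) (hne : H ≠ ⊥) (ι : Fin k ↪ Fin n) :
    H.map ι ≠ ⊥ := by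
  intro h
  apply hne
  ext a b
  constructor
  · intro hab
    have h2 : (H.map ι).Adj (ι a) (ι b) := by
      rw [map_adj]
      exact ⟨a, b, hab, rfl, rfl⟩
    rw [h] at h2
    exact h2
  · intro h
    exact h.elim

theorem scode_of {k n : ℕ} (H : SimpleGraph (Fin k)) (hne : H ≠ ⊥)
    (F : Set (SimpleGraph (Fin n)))
    (hF : ∀ G₁ ∈ F, ∀ G₂ ∈ F, G₁ ≠ G₂ → ¬ ∃ ι : Fin k ↪ Fin n, symmDiff G₁ G₂ = H.map ι) :
    SCode H F := by
  intro G₁ h₁ G₂ h₂ h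
  by_cases heq : G₁ = G₂
  · obtain ⟨ι, hι⟩ := h
    rw [heq, symmDiff_self] at hι
    exact map_ne_bot H hne ι hι.symm
  · exact hF G₁ h₁ G₂ h₂ heq h

theorem of_scode {k n : ℕ} (H : SimpleGraph (Fin k))
    (F : Set (SimpleGraph (Fin n))) (hF : SCode H F) :
    ∀ G₁ ∈ F, ∀ G₂ ∈ F, G₁ ≠ G₂ → ¬ ∃ ι : Fin k ↪ Fin n, symmDiff G₁ G₂ = H.map ι :=
  fun G₁ h₁ G₂ h₂ _ h => hF G₁ h₁ G₂ h₂ h

theorem empty_of_bot {n : ℕ} (F' : Set (SimpleGraph (Fin n)))
    (hF : SCode (⊥ : SimpleGraph Empty) F') : F' = ∅ := by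
  rw [Set.eq_empty_iff_forall_notMem]
  intro G hG
  apply hF G hG G hG
  refine ⟨⟨fun x => x.elim, fun x => x.elim⟩, ?_⟩
  rw [symmDiff_self]
  ext a b
  rw [map_adj]
  simp

end Pool.Agent.helper92.K4H
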