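import Pool.Agent.helper92.K4H.Count

/-!
# Merging two nonadjacent vertices

Helper file of `MP_a43c1c_co.KFourHardest`.
-/

set_option autoImplicit false

namespace Pool.Agent.helper92.K4H

open SimpleGraph

variable {U A Y Ω : Type}

/-- Transport of a family along a bijection of the vertices. -/
def pull (F : Set (SimpleGraph Ω)) (e : Ω ≃ A ⊕ Y) : Set (SimpleGraph (A ⊕ Y)) :=
  {G | G.comap e ∈ F}

theorem pull_code {V : Type} (H : SimpleGraph V) (F : Set (SimpleGraph Ω)) (hF : SCode H F)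
    (e : Ω ≃ A ⊕ Y) : SCode H (pull F e) := by
  intro G₁ h₁ G₂ h₂ hc
  obtain ⟨ι, hι⟩ := hc
  apply hF _ h₁ _ h₂
  refine ⟨ι.trans e.symm.toEmbedding, ?_⟩
  rw [← comap_sd, hι, comap_equiv]

theorem comap_bij {V W : Type} (e : V ≃ W) : Function.Bijective
    (fun G : SimpleGraph W => G.comap e) := by
  constructor
  · intro G G' h
    ext a b
    have h1 : (G.comap e).Adj (e.symm a) (e.symm b) ↔ (G'.comap e).Adj (e.symm a) (e.symm b) := by
      have h' : G.comap e = G'.comap e := h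
      rw [h']
    simpa [comap_adj] using h1
  · intro G
    refine ⟨G.comap e.symm, ?_⟩
    ext a b
    simp [comap_adj]

theorem pull_ncard (F : Set (SimpleGraph Ω)) (e : Ω ≃ A ⊕ Y) : (pull F e).ncard = F.ncard := by
  refine Set.ncard_congr (fun G _ => G.comap e) (fun G hG => hG) ?_ ?_
  · intro G G' _ _ h
    exact (comap_bij e).1 h
  · intro G hG
    obtain ⟨G', hG'⟩ := (comap_bij e).2 G
    have hG'' : G'.comap e = G := hG'
    refine ⟨G', ?_, hG''⟩
    show G'.comap e ∈ F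
    rw [hG'']
    exact hG

/-- The embedding into `A ⊕ Y`. -/
def em (Y : Type) (ι : U ↪ A) : U ↪ A ⊕ Y := ι.trans Function.Embedding.inl

theorem em_apply (ι : U ↪ A) (x : U) : em Y ι x = Sum.inl (ι x) := rfl

/-- The members `G` of `F` such that `G + star(u) + star(y)` is not in `F` for any `y`. -/
def bad (N : Set U) (u : U) (F : Set (SimpleGraph (A ⊕ Y))) (ι : U ↪ A) :
    Set (SimpleGraph (A ⊕ Y)) :=
  {G | G ∈ F ∧ ∀ y : Y, symmDiff (symmDiff G (st (em Y ι u) (em Y ι '' N)))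
    (st (Sum.inr y) (em Y ι '' N)) ∉ F}

/-- The vertices which are permuted. -/
def pt (ι : U ↪ A) (u : U) : Option Y → A ⊕ Y
  | none => em Y ι u
  | some y => Sum.inr y

theorem pt_notMem (ι : U ↪ A) (u : U) (N : Set U) (hu : u ∉ N) (t : Option Y) :
    pt ι u t ∉ em Y ι '' N := by
  rintro ⟨z, hz, h⟩
  cases t with
  | none =>
    have h' : em Y ι z = em Y ι u := h
    exact hu (by rw [← (em Y ι).injective h']; exact hz)
  | some y =>
    have h' : (Sum.inl (ι z) : A ⊕ Y) = Sum.inr y := h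
    cases h'

theorem pt_inj (ι : U ↪ A) (u : U) (t t' : Option Y) (h : pt ι u t = pt ι u t') : t = t' := by
  cases t with
  | none =>
    cases t' with
    | none => rfl
    | some y =>
      have h' : (Sum.inl (ι u) : A ⊕ Y) = Sum.inr y := h
      cases h'
  | some y =>
    cases t' with
    | none =>
      have h' : (Sum.inr y : A ⊕ Y) = Sum.inl (ι u) := h
      cases h'
    | some y' =>
      have h' : (Sum.inr y : A ⊕ Y) = Sum.inr y' := h
      rw [Sum.inr.inj h']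

theorem bad_count [Finite A] [Finite Y] [Finite Ω] (N : Set U) (u : U) (hu : u ∉ N)
    (F : Set (SimpleGraph Ω)) (ι : U ↪ A) :
    (Nat.card Y + 1) * {p : (Ω ≃ A ⊕ Y) × SimpleGraph (A ⊕ Y) |
      p.2 ∈ bad N u (pull F p.1) ι}.ncard ≤
      Nat.card (Ω ≃ A ⊕ Y) * Nat.card (SimpleGraph (A ⊕ Y)) := by
  classical
  set P : Option Y → Set ((Ω ≃ A ⊕ Y) × SimpleGraph (A ⊕ Y)) := fun t =>
    {p | symmDiff p.2 (st (pt ι u t) (em Y ι '' N)) ∈ pull F p.1 ∧
      ∀ t', t' ≠ t → symmDiff p.2 (st (pt ι u t') (em Y ι '' N)) ∉ pull F p.1} with hP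
  have hd : ∀ t t', t ≠ t' → ∀ x, x ∈ P t → x ∉ P t' := by
    intro t t' hne x hx hx'
    exact hx'.2 t hne hx.1
  have hle : ∀ t, {p : (Ω ≃ A ⊕ Y) × SimpleGraph (A ⊕ Y) |
      p.2 ∈ bad N u (pull F p.1) ι}.ncard ≤ (P t).ncard := by
    intro t
    set τ : Equiv.Perm (A ⊕ Y) := Equiv.swap (em Y ι u) (pt ι u t) with hτ
    have hττ : ∀ x, τ (τ x) = x := fun x => Equiv.swap_apply_self _ _ _
    have hN : τ ⁻¹' (em Y ι '' N) = em Y ι '' N := by
      have hfix : ∀ z ∈ em Y ι '' N, τ z = z := by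
        intro z hz
        apply Equiv.swap_apply_of_ne_of_ne
        · intro h
          apply pt_notMem (Y := Y) ι u N hu none
          have h' : pt (Y := Y) ι u none = z := h.symm
          rw [h']
          exact hz
        · intro h
          apply pt_notMem (Y := Y) ι u N hu t
          rw [← h]
          exact hz
      ext z
      constructor
      · intro hz
        have h1 : τ z ∈ em Y ι '' N := hz
        have h2 := hfix _ h1
        rw [hττ] at h2
        rw [h2]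
        exact h1
      · intro hz
        show τ z ∈ em Y ι '' N
        rw [hfix z hz]
        exact hz
    have hst : ∀ w : A ⊕ Y, (st w (em Y ι '' N)).comap τ = st (τ w) (em Y ι '' N) := by
      intro w
      rw [comap_st, hN, hτ, Equiv.symm_swap]
    have h1 : τ (pt ι u t) = em Y ι u := Equiv.swap_apply_right _ _
    have h2 : ∀ t', t' ≠ t → ∃ y, τ (pt ι u t') = Sum.inr y := by
      intro t' ht'
      cases t' with
      | none =>
        cases t with
        | none => exact absurd rfl ht'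
        | some y => exact ⟨y, Equiv.swap_apply_left _ _⟩
      | some y' =>
        refine ⟨y', ?_⟩
        apply Equiv.swap_apply_of_ne_of_ne
        · intro h
          have h' : (Sum.inr y' : A ⊕ Y) = Sum.inl (ι u) := h
          cases h'
        · intro h
          exact ht' (pt_inj ι u (some y') t h)
    have hcc : ∀ G : SimpleGraph (A ⊕ Y), (G.comap τ).comap τ = G := by
      intro G
      ext a b
      simp only [comap_adj]
      rw [hττ, hττ]
    have hpull : ∀ (G : SimpleGraph (A ⊕ Y)) (e : Ω ≃ A ⊕ Y),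
        G ∈ pull F (e.trans τ) ↔ G.comap τ ∈ pull F e := by
      intro G e
      exact Iff.rfl
    refine Set.ncard_le_ncard_of_injOn (fun p => (p.1.trans τ,
      (symmDiff p.2 (st (em Y ι u) (em Y ι '' N))).comap τ)) ?_ ?_ (Set.toFinite _)
    · rintro ⟨e, G⟩ ⟨hG1, hG2⟩
      refine ⟨?_, ?_⟩
      · rw [hpull]
        show (symmDiff ((symmDiff G (st (em Y ι u) (em Y ι '' N))).comap τ)
          (st (pt ι u t) (em Y ι '' N))).comap τ ∈ pull F e
        rw [comap_sd, hcc, hst, h1, sd_cancel]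
        exact hG1
      · intro t' ht'
        rw [hpull]
        show (symmDiff ((symmDiff G (st (em Y ι u) (em Y ι '' N))).comap τ)
          (st (pt ι u t') (em Y ι '' N))).comap τ ∉ pull F e
        obtain ⟨y, hy⟩ := h2 t' ht'
        rw [comap_sd, hcc, hst, hy]
        exact hG2 y
    · rintro ⟨e, G⟩ _ ⟨e', G'⟩ _ h
      simp only [Prod.mk.injEq] at h ⊢
      refine ⟨?_, ?_⟩
      · have h3 := h.1
        ext x
        have h4 := congrArg (fun f : Ω ≃ A ⊕ Y => f x) h3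
        exact τ.injective h4
      · exact sd_inj _ _ _ ((comap_bij τ).1 h.2)
  have h := ncard_disj_le P _ hd hle
  rw [Finite.card_option, Nat.card_prod] at h
  exact h

theorem bad_all [Finite A] [Finite Y] [Finite Ω] [Finite U] (N : Set U) (u : U) (hu : u ∉ N)
    (r : ℕ) (F : Fin r → Set (SimpleGraph Ω)) (e₀ : Ω ≃ A ⊕ Y) :
    ∃ e : Ω ≃ A ⊕ Y, (Nat.card Y + 1) * {G : SimpleGraph (A ⊕ Y) |
      ∃ p : Fin r × (U ↪ A), G ∈ bad N u (pull (F p.1) e) p.2}.ncard ≤
      r * Nat.card (U ↪ A) * Nat.card (SimpleGraph (A ⊕ Y)) := by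
  set P : Set ((Ω ≃ A ⊕ Y) × SimpleGraph (A ⊕ Y)) :=
    {q | ∃ p : Fin r × (U ↪ A), q ∈ {q : (Ω ≃ A ⊕ Y) × SimpleGraph (A ⊕ Y) |
      q.2 ∈ bad N u (pull (F p.1) q.1) p.2}} with hP
  haveI : Nonempty (Ω ≃ A ⊕ Y) := ⟨e₀⟩
  set B : ℕ := Nat.card (Ω ≃ A ⊕ Y) * Nat.card (SimpleGraph (A ⊕ Y)) with hB
  have h1 : P.ncard ≤ Nat.card (Fin r × (U ↪ A)) * (B / (Nat.card Y + 1)) := by
    apply ncard_iUnion_le'
    intro p
    rw [Nat.le_div_iff_mul_le (Nat.succ_pos _), mul_comm]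
    exact bad_count N u hu (F p.1) p.2
  have h2 : (Nat.card Y + 1) * P.ncard ≤ Nat.card (Fin r × (U ↪ A)) * B := by
    calc (Nat.card Y + 1) * P.ncard
        ≤ (Nat.card Y + 1) * (Nat.card (Fin r × (U ↪ A)) * (B / (Nat.card Y + 1))) :=
          Nat.mul_le_mul_left _ h1
      _ = Nat.card (Fin r × (U ↪ A)) * ((Nat.card Y + 1) * (B / (Nat.card Y + 1))) := by ring
      _ ≤ Nat.card (Fin r × (U ↪ A)) * B := Nat.mul_le_mul_left _ (Nat.mul_div_le _ _)
  rw [Nat.card_prod, Nat.card_eq_fintype_card (α := Fin r), Fintype.card_fin] at h2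
  have hE : 0 < Nat.card (Ω ≃ A ⊕ Y) := Nat.card_pos
  obtain ⟨e, he⟩ := fib_le P (Nat.card Y + 1)
    (r * Nat.card (U ↪ A) * Nat.card (SimpleGraph (A ⊕ Y))) (by
      refine lt_of_le_of_lt h2 ?_
      rw [hB]
      calc r * Nat.card (U ↪ A) * (Nat.card (Ω ≃ A ⊕ Y) * Nat.card (SimpleGraph (A ⊕ Y)))
          = (r * Nat.card (U ↪ A) * Nat.card (SimpleGraph (A ⊕ Y))) *
            Nat.card (Ω ≃ A ⊕ Y) := by ring
        _ < (r * Nat.card (U ↪ A) * Nat.card (SimpleGraph (A ⊕ Y)) + 1) *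
            Nat.card (Ω ≃ A ⊕ Y) := Nat.mul_lt_mul_of_pos_right (Nat.lt_succ_self _) hE)
  exact ⟨e, he⟩

/-- The extension of an embedding to a copy of `H`. -/
theorem copy_of_good (H : SimpleGraph (Option U)) (u : U) (F : Set (SimpleGraph (A ⊕ Y)))
    (hF : SCode H F) (ι : U ↪ A) (G₁ G₂ : SimpleGraph (A ⊕ Y)) (h₁ : G₁ ∈ F)
    (hb : G₁ ∉ bad (nbs H) u F ι) (h₂ : G₂ ∈ F)
    (hd : symmDiff G₁ G₂ = (fold H u).map (em Y ι)) : False := by
  have h3 : ∃ y : Y, symmDiff (symmDiff G₁ (st (em Y ι u) (em Y ι '' nbs H)))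
      (st (Sum.inr y) (em Y ι '' nbs H)) ∈ F := by
    by_contra hcon
    push Not at hcon
    exact hb ⟨h₁, hcon⟩
  obtain ⟨y, hy⟩ := h3
  apply hF _ hy _ h₂
  have hw : (Sum.inr y : A ⊕ Y) ∉ Set.range (em Y ι) := by
    rintro ⟨z, hz⟩
    have h' : (Sum.inl (ι z) : A ⊕ Y) = Sum.inr y := hz
    cases h'
  refine ⟨(em Y ι).optionElim (Sum.inr y) hw, ?_⟩
  rw [map_fold, ← hd]
  rw [symmDiff_assoc G₁, symmDiff_assoc G₁, symmDiff_comm _ G₂]
  simp only [symmDiff_assoc]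

theorem fold_density [Finite A] [Finite Y] [Finite Ω] [Finite U] (H : SimpleGraph (Option U))
    (u : U) (hu : u ∉ nbs H) (F : Set (SimpleGraph Ω)) (hF : SCode H F) (e₀ : Ω ≃ A ⊕ Y) :
    ∃ C : Set (SimpleGraph A), SCode (fold H u) C ∧
      (Nat.card Y + 1) * (Nat.card (SimpleGraph A) * F.ncard) ≤
        (Nat.card Y + 1) * (Nat.card (SimpleGraph (A ⊕ Y)) * C.ncard) +
          Nat.card (SimpleGraph A) * (Nat.card (U ↪ A) * Nat.card (SimpleGraph (A ⊕ Y))) := by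
  obtain ⟨e, he⟩ := bad_all (nbs H) u hu 1 (fun _ => F) e₀
  set B : Set (SimpleGraph (A ⊕ Y)) := {G | ∃ p : Fin 1 × (U ↪ A),
    G ∈ bad (nbs H) u (pull F e) p.2} with hB
  rw [one_mul] at he
  have he' : (Nat.card Y + 1) * B.ncard ≤ Nat.card (U ↪ A) * Nat.card (SimpleGraph (A ⊕ Y)) := he
  set X : Set (SimpleGraph (A ⊕ Y)) := pull F e \ B with hX
  have hXc : F.ncard ≤ X.ncard + B.ncard := by
    rw [← pull_ncard F e]
    exact Set.ncard_le_ncard_sdiff_add_ncard _ _ (Set.toFinite _)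
  obtain ⟨G₀, hG₀⟩ := exists_shift (fun S : SimpleGraph A =>
    S.map (Function.Embedding.inl : A ↪ A ⊕ Y)) X
  refine ⟨{S : SimpleGraph A | symmDiff G₀ (S.map (Function.Embedding.inl : A ↪ A ⊕ Y)) ∈ X},
    ?_, ?_⟩
  · rintro S₁ ⟨h₁, hb₁⟩ S₂ ⟨h₂, -⟩ ⟨ι, hι⟩
    refine copy_of_good H u (pull F e) (pull_code H F hF e) ι _ _ h₁
      (fun h => hb₁ ⟨(0, ι), h⟩) h₂ ?_
    rw [sd_cancel_left, ← map_sd, hι, map_map']
    rfl
  · calc (Nat.card Y + 1) * (Nat.card (SimpleGraph A) * F.ncard)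
        ≤ (Nat.card Y + 1) * (Nat.card (SimpleGraph A) * (X.ncard + B.ncard)) := by gcongr
      _ = (Nat.card Y + 1) * (Nat.card (SimpleGraph A) * X.ncard) +
          Nat.card (SimpleGraph A) * ((Nat.card Y + 1) * B.ncard) := by ring
      _ ≤ _ := by gcongr

theorem fold_colour [Finite A] [Finite Y] [Finite Ω] [Finite U] (H : SimpleGraph (Option U))
    (u : U) (hu : u ∉ nbs H) (r : ℕ) (c : SimpleGraph Ω → Fin r)
    (hc : ∀ G₁ G₂, IsCopy H (symmDiff G₁ G₂) → c G₁ ≠ c G₂) (e₀ : Ω ≃ A ⊕ Y)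
    (hY : r * Nat.card (U ↪ A) * Nat.card (SimpleGraph A) < Nat.card Y + 1) :
    ∃ c' : SimpleGraph A → Fin r,
      ∀ S₁ S₂, IsCopy (fold H u) (symmDiff S₁ S₂) → c' S₁ ≠ c' S₂ := by
  obtain ⟨e, he⟩ := bad_all (nbs H) u hu r (fun j => {G | c G = j}) e₀
  set B : Set (SimpleGraph (A ⊕ Y)) := {G : SimpleGraph (A ⊕ Y) |
      ∃ p : Fin r × (U ↪ A), G ∈ bad (nbs H) u (pull {G | c G = p.1} e) p.2} with hB
  have hg : 0 < Nat.card (SimpleGraph (A ⊕ Y)) := Nat.card_pos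
  have hlt : Nat.card (SimpleGraph A) * B.ncard < Nat.card (SimpleGraph (A ⊕ Y)) := by
    by_contra hcon
    push Not at hcon
    have h1 : (Nat.card Y + 1) * Nat.card (SimpleGraph (A ⊕ Y)) ≤
        Nat.card (SimpleGraph A) *
          (r * Nat.card (U ↪ A) * Nat.card (SimpleGraph (A ⊕ Y))) := by
      calc (Nat.card Y + 1) * Nat.card (SimpleGraph (A ⊕ Y))
          ≤ (Nat.card Y + 1) * (Nat.card (SimpleGraph A) * B.ncard) := by gcongr
        _ = Nat.card (SimpleGraph A) * ((Nat.card Y + 1) * B.ncard) := by ring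
        _ ≤ _ := by gcongr
    have h2 : (Nat.card Y + 1) * Nat.card (SimpleGraph (A ⊕ Y)) ≤
        (r * Nat.card (U ↪ A) * Nat.card (SimpleGraph A)) *
          Nat.card (SimpleGraph (A ⊕ Y)) := by
      refine h1.trans (le_of_eq ?_)
      ring
    exact absurd (Nat.le_of_mul_le_mul_right h2 hg) (not_le.2 hY)
  obtain ⟨G₀, hG₀⟩ := exists_shift_empty (fun S : SimpleGraph A =>
    S.map (Function.Embedding.inl : A ↪ A ⊕ Y)) B hlt
  refine ⟨fun S => c ((symmDiff G₀ (S.map (Function.Embedding.inl : A ↪ A ⊕ Y))).comap e), ?_⟩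
  rintro S₁ S₂ ⟨ι, hι⟩ hcc
  set j := c ((symmDiff G₀ (S₂.map (Function.Embedding.inl : A ↪ A ⊕ Y))).comap e) with hj
  have hF : SCode H (pull {G | c G = j} e) := by
    apply pull_code
    intro G₁ h₁ G₂ h₂ hcopy
    exact hc G₁ G₂ hcopy (h₁.trans h₂.symm)
  refine copy_of_good H u (pull {G | c G = j} e) hF ι
    (symmDiff G₀ (S₁.map (Function.Embedding.inl : A ↪ A ⊕ Y)))
    (symmDiff G₀ (S₂.map (Function.Embedding.inl : A ↪ A ⊕ Y))) hcc
    (fun h => hG₀ S₁ ⟨(j, ι), h⟩) rfl ?_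
  rw [sd_cancel_left, ← map_sd, hι, map_map']
  rfl

end Pool.Agent.helper92.K4H
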