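import Pool.Agent.helper92.K4H.Basic

/-!
# Numbers of edges

Helper file of `MP_a43c1c_co.KFourHardest`.
-/

set_option autoImplicit false

namespace Pool.Agent.helper92.K4H

open SimpleGraph

variable {U V W : Type}

/-- The number of edges. -/
noncomputable def ec (H : SimpleGraph V) : ℕ := H.edgeSet.ncard

theorem ncard_sd {α : Type} (s t : Set α) (hs : s.Finite) (ht : t.Finite) :
    (symmDiff s t).ncard + 2 * (s ∩ t).ncard = s.ncard + t.ncard := by
  have h1 : (symmDiff s t).ncard = (s \ t).ncard + (t \ s).ncard := by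
    rw [Set.symmDiff_def]
    apply Set.ncard_union_eq _ (hs.subset Set.sdiff_subset) (ht.subset Set.sdiff_subset)
    rw [Set.disjoint_left]
    intro x hx hx'
    exact hx'.2 hx.1
  have h2 : (s ∩ t).ncard + (s \ t).ncard = s.ncard :=
    Set.ncard_inter_add_ncard_sdiff_eq_ncard s t hs
  have h3 : (t ∩ s).ncard + (t \ s).ncard = t.ncard :=
    Set.ncard_inter_add_ncard_sdiff_eq_ncard t s ht
  rw [Set.inter_comm t s] at h3
  omega

theorem ec_sd [Finite V] (A B : SimpleGraph V) :
    Even (ec (symmDiff A B)) ↔ (Even (ec A) ↔ Even (ec B)) := by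
  have h1 : (symmDiff A B).edgeSet = symmDiff A.edgeSet B.edgeSet := by
    rw [symmDiff_def, edgeSet_sup, edgeSet_sdiff, edgeSet_sdiff]
    rfl
  have h2 := ncard_sd A.edgeSet B.edgeSet (Set.toFinite _) (Set.toFinite _)
  unfold ec
  rw [h1]
  rw [← Nat.even_add, ← h2, Nat.even_add]
  constructor
  · intro h
    exact ⟨fun _ => even_two_mul _, fun _ => h⟩
  · intro h
    exact h.2 (even_two_mul _)

theorem ec_map [Finite V] (f : V ↪ W) (A : SimpleGraph V) : ec (A.map f) = ec A := by
  unfold ec
  rw [edgeSet_map]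
  exact Set.ncard_image_of_injective _ f.sym2Map.injective

theorem ec_st [Finite V] (t : V) (N : Set V) (ht : t ∉ N) : ec (st t N) = N.ncard := by
  have h1 : (st t N).edgeSet = (fun z => s(t, z)) '' N := by
    ext e
    induction e using Sym2.ind with
    | _ a b =>
      rw [mem_edgeSet, st_adj]
      constructor
      · rintro ⟨-, ⟨rfl, h⟩ | ⟨rfl, h⟩⟩
        · exact ⟨b, h, rfl⟩
        · exact ⟨a, h, Sym2.eq_swap⟩
      · rintro ⟨z, hz, h⟩
        have h' : s(t, z) = s(a, b) := h
        rw [Sym2.eq_iff] at h'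
        rcases h' with ⟨rfl, rfl⟩ | ⟨rfl, rfl⟩
        · exact ⟨fun h => ht (by rw [h]; exact hz), Or.inl ⟨rfl, hz⟩⟩
        · exact ⟨fun h => ht (by rw [← h]; exact hz), Or.inr ⟨rfl, hz⟩⟩
  unfold ec
  rw [h1]
  apply Set.InjOn.ncard_image
  intro a _ b _ h
  have h' : s(t, a) = s(t, b) := h
  exact Sym2.congr_right.1 h'

theorem ec_option [Finite U] (H : SimpleGraph (Option U)) :
    Even (ec H) ↔ (Even (ec (H.comap some)) ↔ Even (nbs H).ncard) := by
  have hw : (none : Option U) ∉ Set.range (Function.Embedding.some : U ↪ Option U) := by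
    rintro ⟨z, hz⟩
    cases hz
  have h1 := map_option H (Function.Embedding.some : U ↪ Option U) none hw
  have h2 : H.map ((Function.Embedding.some : U ↪ Option U).optionElim none hw) = H := by
    ext a b
    have hid : ∀ x : Option U,
        ((Function.Embedding.some : U ↪ Option U).optionElim none hw) x = x := by
      rintro (_ | x) <;> rfl
    rw [map_adj]
    constructor
    · rintro ⟨x, y, h, rfl, rfl⟩
      rw [hid, hid]
      exact h
    · intro h
      exact ⟨a, b, h, hid a, hid b⟩
  rw [h2] at h1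
  rw [h1, ec_sd, ec_map, ec_st]
  · have h3 : ((Function.Embedding.some : U ↪ Option U) '' nbs
        (symmDiff ((H.comap some).map (Function.Embedding.some : U ↪ Option U))
          (st none ((Function.Embedding.some : U ↪ Option U) '' nbs H)))).ncard =
          (nbs H).ncard := by
      rw [← h1]
      exact Set.ncard_image_of_injective _ (Function.Embedding.some : U ↪ Option U).injective
    have h4 : ((Function.Embedding.some : U ↪ Option U) '' nbs H).ncard = (nbs H).ncard :=
      Set.ncard_image_of_injective _ (Function.Embedding.some : U ↪ Option U).injective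
    rw [h4, ← h1]
  · rintro ⟨z, -, hz⟩
    cases hz

theorem ec_fold [Finite U] (H : SimpleGraph (Option U)) (u : U) (hu : u ∉ nbs H) :
    Even (ec (fold H u)) ↔ Even (ec H) := by
  unfold fold
  rw [ec_sd, ec_st u _ hu, ec_option]

theorem ec_equiv [Finite V] (e : V ≃ W) (H : SimpleGraph V) : ec (H.comap e.symm) = ec H := by
  have h : H.comap e.symm = H.map e.toEmbedding := by
    ext a b
    rw [comap_adj, map_adj]
    constructor
    · intro h
      exact ⟨e.symm a, e.symm b, h, e.apply_symm_apply a, e.apply_symm_apply b⟩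
    · rintro ⟨x, y, h, rfl, rfl⟩
      show H.Adj (e.symm (e x)) (e.symm (e y))
      rw [e.symm_apply_apply, e.symm_apply_apply]
      exact h
  rw [h, ec_map]

theorem ec_top (k : ℕ) : ec (⊤ : SimpleGraph (Fin k)) = k.choose 2 := by
  classical
  unfold ec
  have h := card_edgeFinset_top_eq_card_choose_two (V := Fin k)
  rw [Fintype.card_fin] at h
  rw [← h, ← coe_edgeFinset, Set.ncard_coe_finset]

/-- Even complete graphs. -/
theorem top_even (k : ℕ) (h : Even (ec (⊤ : SimpleGraph (Fin k)))) :
    (k = 0 ∨ k = 1) ∨ ∃ q ε : ℕ, 1 ≤ q ∧ ε ≤ 1 ∧ k = 4 * q + ε := by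
  rw [ec_top, Nat.choose_two_right] at h
  obtain ⟨q, r, hr, rfl⟩ : ∃ q r, r < 4 ∧ k = 4 * q + r :=
    ⟨k / 4, k % 4, Nat.mod_lt _ (by norm_num), by omega⟩
  have key : r ≤ 1 := by
    by_contra hcon
    have hr' : r = 2 ∨ r = 3 := by omega
    rcases hr' with rfl | rfl
    · have e1 : (4 * q + 2) * (4 * q + 2 - 1) / 2 = 2 * (4 * q * q + 3 * q) + 1 := by
        have e2 : (4 * q + 2) * (4 * q + 2 - 1) = 2 * (2 * (4 * q * q + 3 * q) + 1) := by
          have : 4 * q + 2 - 1 = 4 * q + 1 := by omega
          rw [this]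
          ring
        rw [e2]
        exact Nat.mul_div_cancel_left _ (by norm_num)
      rw [e1] at h
      exact absurd h (by rw [Nat.not_even_iff_odd]; exact ⟨_, rfl⟩)
    · have e1 : (4 * q + 3) * (4 * q + 3 - 1) / 2 = 2 * (4 * q * q + 5 * q + 1) + 1 := by
        have e2 : (4 * q + 3) * (4 * q + 3 - 1) = 2 * (2 * (4 * q * q + 5 * q + 1) + 1) := by
          have : 4 * q + 3 - 1 = 4 * q + 2 := by omega
          rw [this]
          ring
        rw [e2]
        exact Nat.mul_div_cancel_left _ (by norm_num)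
      rw [e1] at h
      exact absurd h (by rw [Nat.not_even_iff_odd]; exact ⟨_, rfl⟩)
  rcases Nat.eq_zero_or_pos q with rfl | hq
  · left
    omega
  · right
    exact ⟨q, r, hq, key, rfl⟩

end Pool.Agent.helper92.K4H
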