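import Pool.Agent.helper92.K4H.Fold
import Pool.Agent.helper92.K4H.Blow
import Pool.Agent.helper92.K4H.Parity

/-!
# The induction

Helper file of `MP_a43c1c_co.KFourHardest`.
-/

set_option autoImplicit false

namespace Pool.Agent.helper92.K4H

open SimpleGraph

variable {U V W X : Type}

/-- Comparison of the densities of `H`-codes and `K`-codes. -/
def Pd (K : SimpleGraph X) (a : ℕ) (H : SimpleGraph U) : Prop :=
  ∃ C : ℕ, ∀ n N : ℕ, (n + 2) ^ C ≤ N → ∀ F : Set (SimpleGraph (Fin N)), SCode H F →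
    ∃ F' : Set (SimpleGraph (Fin n)), SCode K F' ∧
      (F.ncard : ℝ) / Nat.card (SimpleGraph (Fin N)) ≤
        (F'.ncard : ℝ) / Nat.card (SimpleGraph (Fin n)) + a / (n + 1)

/-- Comparison of the colourings. -/
def Pc (H : SimpleGraph U) : Prop :=
  ∀ r : ℕ, (∀ N : ℕ, ∃ c : SimpleGraph (Fin N) → Fin r,
    ∀ G₁ G₂, IsCopy H (symmDiff G₁ G₂) → c G₁ ≠ c G₂) →
    ∀ n : ℕ, ∃ c : SimpleGraph (Fin n) → Fin r,
      ∀ G₁ G₂, IsCopy (⊤ : SimpleGraph (Fin 4)) (symmDiff G₁ G₂) → c G₁ ≠ c G₂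

theorem gpos (n : ℕ) : (0 : ℝ) < Nat.card (SimpleGraph (Fin n)) := by
  exact_mod_cast Nat.card_pos

theorem card_equiv (e : V ≃ W) : Nat.card (SimpleGraph V) = Nat.card (SimpleGraph W) :=
  Nat.card_congr (Equiv.ofBijective _ (comap_bij' e)).symm
where
  comap_bij' (e : V ≃ W) : Function.Bijective (fun G : SimpleGraph W => G.comap e) := by
    constructor
    · intro G G' h
      ext a b
      have h1 : (G.comap e).Adj (e.symm a) (e.symm b) ↔ (G'.comap e).Adj (e.symm a) (e.symm b) := by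
        have h' : G.comap e = G'.comap e := h
        rw [h']
      simpa using h1
    · intro G
      refine ⟨G.comap e.symm, ?_⟩
      ext a b
      simp

theorem emb_card (U : Type) [Finite U] (n : ℕ) : Nat.card (U ↪ Fin n) ≤ n ^ Nat.card U := by
  classical
  letI : Fintype U := Fintype.ofFinite U
  rw [Nat.card_eq_fintype_card, Fintype.card_embedding_eq, Fintype.card_fin,
    Nat.card_eq_fintype_card]
  exact Nat.descFactorial_le_pow _ _

theorem copy_iso (e : V ≃ W) (H : SimpleGraph V) (D : SimpleGraph X)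
    (h : IsCopy (H.comap e.symm) D) : IsCopy H D := by
  obtain ⟨ι, rfl⟩ := h
  refine ⟨e.toEmbedding.trans ι, ?_⟩
  ext a b
  rw [map_adj, map_adj]
  constructor
  · rintro ⟨x, y, h, rfl, rfl⟩
    refine ⟨e.symm x, e.symm y, h, ?_, ?_⟩
    · show ι (e (e.symm x)) = ι x
      rw [e.apply_symm_apply]
    · show ι (e (e.symm y)) = ι y
      rw [e.apply_symm_apply]
  · rintro ⟨x, y, h, rfl, rfl⟩
    refine ⟨e x, e y, ?_, rfl, rfl⟩
    show H.Adj (e.symm (e x)) (e.symm (e y))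
    rw [e.symm_apply_apply, e.symm_apply_apply]
    exact h

theorem copy_iso' (e : V ≃ W) (H : SimpleGraph V) (D : SimpleGraph X)
    (h : IsCopy H D) : IsCopy (H.comap e.symm) D := by
  apply copy_iso e.symm
  have h1 : (H.comap e.symm).comap e.symm.symm = H := by
    ext a b
    show H.Adj (e.symm (e a)) (e.symm (e b)) ↔ H.Adj a b
    rw [e.symm_apply_apply, e.symm_apply_apply]
  rw [h1]
  exact h

theorem Pd_iso (K : SimpleGraph X) (a : ℕ) (e : V ≃ W) (H : SimpleGraph V)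
    (h : Pd K a (H.comap e.symm)) : Pd K a H := by
  obtain ⟨C, hC⟩ := h
  refine ⟨C, fun n N hN F hF => hC n N hN F fun G₁ h₁ G₂ h₂ hc => hF G₁ h₁ G₂ h₂ ?_⟩
  exact copy_iso e H _ hc

theorem Pc_iso (e : V ≃ W) (H : SimpleGraph V) (h : Pc (H.comap e.symm)) : Pc H := by
  intro r hr
  apply h r
  intro N
  obtain ⟨c, hc⟩ := hr N
  exact ⟨c, fun G₁ G₂ h' => hc G₁ G₂ (copy_iso e H _ h')⟩

theorem Pd_mono (K : SimpleGraph X) {a b : ℕ} (hab : a ≤ b) (H : SimpleGraph V)
    (h : Pd K a H) : Pd K b H := by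
  obtain ⟨C, hC⟩ := h
  refine ⟨C, fun n N hN F hF => ?_⟩
  obtain ⟨F', hF', h⟩ := hC n N hN F hF
  refine ⟨F', hF', h.trans ?_⟩
  have hab' : (a : ℝ) ≤ b := by exact_mod_cast hab
  gcongr

theorem emp_code (H : SimpleGraph U) : SCode H (∅ : Set (SimpleGraph W)) := fun _ h => h.elim

theorem Pd_bot [Finite U] (K : SimpleGraph X) : Pd K 0 (⊥ : SimpleGraph U) := by
  refine ⟨Nat.card U, fun n N hN F hF => ⟨∅, emp_code _, ?_⟩⟩
  have hU : Nat.card U ≤ N := by
    refine le_trans (Nat.lt_two_pow_self (n := Nat.card U)).le (le_trans ?_ hN)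
    exact Nat.pow_le_pow_left (by omega) _
  have hF0 : F = ∅ := by
    rw [Set.eq_empty_iff_forall_notMem]
    intro G hG
    apply hF G hG G hG
    refine ⟨(Finite.equivFin U).toEmbedding.trans (Fin.castLEEmb hU), ?_⟩
    rw [symmDiff_self]
    ext a b
    rw [map_adj]
    simp
  rw [hF0]
  simp

theorem Pc_bot [Finite U] : Pc (⊥ : SimpleGraph U) := by
  intro r hr n
  exfalso
  obtain ⟨c, hc⟩ := hr (Nat.card U)
  apply hc ⊥ ⊥ ?_ rfl
  refine ⟨(Finite.equivFin U).toEmbedding, ?_⟩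
  rw [symmDiff_self]
  ext a b
  rw [map_adj]
  simp

theorem top_emb (q ε n N : ℕ) (h : n * q + ε ≤ N) :
    Nonempty ((Fin n × Fin q) ⊕ Fin ε ↪ Fin N) := by
  classical
  apply Function.Embedding.nonempty_of_card_le
  rw [Fintype.card_sum, Fintype.card_prod, Fintype.card_fin, Fintype.card_fin, Fintype.card_fin,
    Fintype.card_fin]
  exact h

theorem top_equiv (q ε : ℕ) : Nonempty ((Fin 4 × Fin q) ⊕ Fin ε ≃ Fin (4 * q + ε)) := by
  classical
  apply Fintype.card_eq.1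
  rw [Fintype.card_sum, Fintype.card_prod, Fintype.card_fin, Fintype.card_fin, Fintype.card_fin,
    Fintype.card_fin]

theorem eps_sub (ε : ℕ) (h : ε ≤ 1) : Subsingleton (Fin ε) := by
  constructor
  intro a b
  apply Fin.ext
  have := a.2
  have := b.2
  omega

theorem Pd_top (q ε : ℕ) (hε : ε ≤ 1) :
    Pd (⊤ : SimpleGraph (Fin 4)) 0 (⊤ : SimpleGraph (Fin (4 * q + ε))) := by
  haveI := eps_sub ε hε
  refine ⟨q + 1, fun n N hN F hF => ?_⟩
  have h1 : n * q + ε ≤ N := by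
    refine le_trans ?_ hN
    have h2 : q < 2 ^ q := Nat.lt_two_pow_self
    have h3 : 2 ^ q ≤ (n + 2) ^ q := Nat.pow_le_pow_left (by omega) _
    calc n * q + ε ≤ (n + 2) * (n + 2) ^ q := by nlinarith
      _ = (n + 2) ^ (q + 1) := by rw [pow_succ]; ring
  obtain ⟨j⟩ := top_emb q ε n N h1
  obtain ⟨e⟩ := top_equiv q ε
  obtain ⟨C, hC, hle⟩ := blow_density j e F hF
  refine ⟨C, hC, ?_⟩
  have hle' : (Nat.card (SimpleGraph (Fin n)) : ℝ) * F.ncard ≤
      Nat.card (SimpleGraph (Fin N)) * C.ncard := by exact_mod_cast hle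
  rw [Nat.cast_zero, zero_div, add_zero, div_le_div_iff₀ (gpos N) (gpos n)]
  linarith

theorem Pc_top (q ε : ℕ) (hε : ε ≤ 1) : Pc (⊤ : SimpleGraph (Fin (4 * q + ε))) := by
  haveI := eps_sub ε hε
  intro r hr n
  obtain ⟨j⟩ := top_emb q ε n (n * q + ε) le_rfl
  obtain ⟨e⟩ := top_equiv q ε
  obtain ⟨c, hc⟩ := hr (n * q + ε)
  exact blow_colour j e c hc

theorem Pd_fold [Finite U] (K : SimpleGraph X) (a : ℕ) (H : SimpleGraph (Option U)) (u : U)
    (hu : u ∉ nbs H) (h : Pd K a (fold H u)) : Pd K (a + 1) H := by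
  obtain ⟨C, hC⟩ := h
  set k := Nat.card U with hk
  refine ⟨1 + C * (k + 1), fun n N hN F hF => ?_⟩
  set N' : ℕ := (n + 2) ^ C with hN'
  have hN'1 : 1 ≤ N' := Nat.one_le_pow _ _ (by omega)
  have h1 : N' + (n + 1) * N' ^ k ≤ N := by
    refine le_trans ?_ hN
    have e1 : (n + 2) ^ (1 + C * (k + 1)) = (n + 2) * N' ^ (k + 1) := by
      rw [pow_add, pow_one, pow_mul]
    rw [e1]
    have e2 : N' ≤ N' ^ (k + 1) := Nat.le_self_pow (by omega) _
    have e3 : N' ^ k ≤ N' ^ (k + 1) := Nat.pow_le_pow_right hN'1 (by omega)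
    nlinarith
  obtain ⟨M, rfl⟩ := Nat.exists_eq_add_of_le (le_trans (Nat.le_add_right _ _) h1)
  have hM : (n + 1) * N' ^ k ≤ M := by omega
  have e₀ : Fin (N' + M) ≃ Fin N' ⊕ Fin M := finSumFinEquiv.symm
  obtain ⟨F₁, hF₁, hle⟩ := fold_density H u hu F hF e₀
  obtain ⟨F', hF', hle'⟩ := hC n N' le_rfl F₁ hF₁
  refine ⟨F', hF', ?_⟩
  have hg : Nat.card (SimpleGraph (Fin N' ⊕ Fin M)) =
      Nat.card (SimpleGraph (Fin (N' + M))) := (card_equiv e₀).symm
  rw [hg, Nat.card_eq_fintype_card (α := Fin M), Fintype.card_fin] at hle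
  have hle2 : ((M : ℝ) + 1) * (Nat.card (SimpleGraph (Fin N')) * F.ncard) ≤
      ((M : ℝ) + 1) * (Nat.card (SimpleGraph (Fin (N' + M))) * F₁.ncard) +
        Nat.card (SimpleGraph (Fin N')) * (Nat.card (U ↪ Fin N') *
          Nat.card (SimpleGraph (Fin (N' + M)))) := by exact_mod_cast hle
  have hemb : (Nat.card (U ↪ Fin N') : ℝ) ≤ (N' : ℝ) ^ k := by
    exact_mod_cast emb_card U N'
  have hMr : ((n : ℝ) + 1) * (N' : ℝ) ^ k ≤ M := by exact_mod_cast hM
  have g1 := gpos N'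
  have g2 := gpos (N' + M)
  have hM1 : (0 : ℝ) < (M : ℝ) + 1 := by positivity
  have hn1 : (0 : ℝ) < (n : ℝ) + 1 := by positivity
  have key : (F.ncard : ℝ) / Nat.card (SimpleGraph (Fin (N' + M))) ≤
      (F₁.ncard : ℝ) / Nat.card (SimpleGraph (Fin N')) + 1 / (n + 1) := by
    have h2 : (F.ncard : ℝ) / Nat.card (SimpleGraph (Fin (N' + M))) ≤
        (F₁.ncard : ℝ) / Nat.card (SimpleGraph (Fin N')) +
          (Nat.card (U ↪ Fin N') : ℝ) / (M + 1) := by
      rw [div_add_div _ _ g1.ne' hM1.ne', div_le_div_iff₀ g2 (mul_pos g1 hM1)]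
      linarith
    refine h2.trans ?_
    have h3 : (Nat.card (U ↪ Fin N') : ℝ) / (M + 1) ≤ 1 / (n + 1) := by
      rw [div_le_div_iff₀ hM1 hn1]
      nlinarith
    linarith
  have h4 : ((a + 1 : ℕ) : ℝ) / (n + 1) = a / (n + 1) + 1 / (n + 1) := by
    push_cast
    ring
  rw [h4]
  linarith

theorem Pc_fold [Finite U] (H : SimpleGraph (Option U)) (u : U) (hu : u ∉ nbs H)
    (h : Pc (fold H u)) : Pc H := by
  intro r hr
  apply h r
  intro n
  set M := r * Nat.card (U ↪ Fin n) * Nat.card (SimpleGraph (Fin n)) with hM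
  have e₀ : Fin (n + M) ≃ Fin n ⊕ Fin M := finSumFinEquiv.symm
  obtain ⟨c, hc⟩ := hr (n + M)
  refine fold_colour H u hu r c hc e₀ ?_
  rw [Nat.card_eq_fintype_card (α := Fin M), Fintype.card_fin]
  omega

/-- Two nonadjacent vertices can be merged. -/
theorem merge {k : ℕ} (H : SimpleGraph (Fin (k + 1))) (v w : Fin (k + 1)) (hvw : v ≠ w)
    (hadj : ¬ H.Adj v w) :
    ∃ (e : Fin (k + 1) ≃ Option (Fin k)) (u : Fin k), e.symm none = v ∧ e w = some u ∧
      u ∉ nbs (H.comap e.symm) := by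
  refine ⟨finSuccEquiv' v, ?_⟩
  set e : Fin (k + 1) ≃ Option (Fin k) := finSuccEquiv' v with he
  have hev : e.symm none = v := finSuccEquiv'_symm_none v
  obtain ⟨u, hu⟩ : ∃ u, e w = some u := by
    rcases hx : e w with _ | u
    · exfalso
      apply hvw
      rw [← hev, ← hx, e.symm_apply_apply]
    · exact ⟨u, rfl⟩
  refine ⟨u, hev, hu, ?_⟩
  intro h
  have h' : H.Adj (e.symm none) (e.symm (some u)) := h
  rw [hev, ← hu, e.symm_apply_apply] at h'
  exact hadj h'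

theorem exists_nonadj (H : SimpleGraph V) (hT : H ≠ ⊤) : ∃ v w, v ≠ w ∧ ¬ H.Adj v w := by
  by_contra hcon
  push Not at hcon
  apply hT
  ext a b
  rw [top_adj]
  exact ⟨fun h => h.ne, fun h => hcon a b h⟩

theorem small_bot {k : ℕ} (hk : k ≤ 1) (H : SimpleGraph (Fin k)) : H = ⊥ := by
  ext a b
  have hab : a = b := Fin.ext (by omega)
  rw [hab]
  simp

theorem main : ∀ (k : ℕ) (H : SimpleGraph (Fin k)), Even (ec H) →
    Pd (⊤ : SimpleGraph (Fin 4)) k H ∧ Pc H := by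
  intro k
  induction k with
  | zero =>
    intro H _
    rw [small_bot (by omega) H]
    exact ⟨Pd_bot _, Pc_bot⟩
  | succ k ih =>
    intro H hE
    by_cases hT : H = ⊤
    · subst hT
      rcases top_even _ hE with h1 | ⟨q, ε, -, hε, h1⟩
      · have hb : (⊤ : SimpleGraph (Fin (k + 1))) = ⊥ := small_bot (by omega) _
        rw [hb]
        exact ⟨Pd_mono _ (Nat.zero_le _) _ (Pd_bot _), Pc_bot⟩
      · rw [h1]
        exact ⟨Pd_mono _ (Nat.zero_le _) _ (Pd_top q ε hε), Pc_top q ε hε⟩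
    · obtain ⟨v, w, hvw, hadj⟩ := exists_nonadj H hT
      obtain ⟨e, u, -, -, hun⟩ := merge H v w hvw hadj
      have hE' : Even (ec (fold (H.comap e.symm) u)) := by
        rw [ec_fold _ _ hun, ec_equiv]
        exact hE
      obtain ⟨h4, h5⟩ := ih _ hE'
      exact ⟨Pd_iso _ _ e _ (Pd_fold _ k _ u hun h4), Pc_iso e _ (Pc_fold _ u hun h5)⟩

/-- Even graphs on at most three vertices. -/
theorem main3 (K : SimpleGraph X) : ∀ (k : ℕ) (H : SimpleGraph (Fin k)), k ≤ 3 → Even (ec H) →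
    Pd K k H := by
  intro k
  induction k with
  | zero =>
    intro H _ _
    rw [small_bot (by omega) H]
    exact Pd_bot _
  | succ k ih =>
    intro H hk hE
    by_cases hT : H = ⊤
    · subst hT
      rcases top_even _ hE with h1 | ⟨q, ε, hq, hε, h1⟩
      · have hb : (⊤ : SimpleGraph (Fin (k + 1))) = ⊥ := small_bot (by omega) _
        rw [hb]
        exact Pd_mono _ (Nat.zero_le _) _ (Pd_bot _)
      · omega
    · obtain ⟨v, w, hvw, hadj⟩ := exists_nonadj H hT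
      obtain ⟨e, u, -, -, hun⟩ := merge H v w hvw hadj
      have hE' : Even (ec (fold (H.comap e.symm) u)) := by
        rw [ec_fold _ _ hun, ec_equiv]
        exact hE
      exact Pd_iso _ _ e _ (Pd_fold _ k _ u hun (ih _ (by omega) hE'))

end Pool.Agent.helper92.K4H
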