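import Pool.Agent.helper92.K4H.Dens

/-!
# Power bounds

Helper file of `MP_a43c1c_co.EvenClasses`.
-/

set_option autoImplicit false

namespace Pool.Agent.helper92.K4H

open SimpleGraph

theorem power_bound (f : ℕ → ℝ) (k C : ℕ) (h1 : ∀ N, f N ≤ 1)
    (h : ∀ n N : ℕ, (n + 2) ^ C ≤ N → f N ≤ (k : ℝ) / (n + 1)) :
    ∃ A δ : ℝ, 0 < δ ∧ ∀ N : ℕ, 1 ≤ N → f N ≤ A * (N : ℝ) ^ (-δ) := by
  refine ⟨3 * k + 2, 1 / ((C : ℝ) + 1), by positivity, fun N hN => ?_⟩
  set δ : ℝ := 1 / ((C : ℝ) + 1) with hδ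
  have hδ0 : 0 < δ := by positivity
  have hNr : (1 : ℝ) ≤ N := by exact_mod_cast hN
  have hN0 : (0 : ℝ) < N := by linarith
  set x : ℝ := (N : ℝ) ^ δ with hx
  have hx1 : 1 ≤ x := Real.one_le_rpow hNr hδ0.le
  have hx0 : 0 < x := by linarith
  have hneg : (N : ℝ) ^ (-δ) = 1 / x := by
    rw [Real.rpow_neg hN0.le, one_div]
  rw [hneg]
  set m : ℕ := ⌊x⌋₊ with hm
  have hm1 : 1 ≤ m := by
    rw [hm]
    exact (Nat.one_le_floor_iff x).2 hx1
  have hmx : (m : ℝ) ≤ x := Nat.floor_le hx0.le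
  have hxm : x < m + 1 := Nat.lt_floor_add_one x
  have hpow : m ^ (C + 1) ≤ N := by
    have h2 : ((m : ℝ)) ^ (C + 1) ≤ x ^ (C + 1) := by gcongr
    have h3 : x ^ (C + 1) = N := by
      rw [hx, ← Real.rpow_natCast, ← Real.rpow_mul hN0.le, hδ]
      push_cast
      rw [one_div, inv_mul_cancel₀ (by positivity), Real.rpow_one]
    rw [h3] at h2
    exact_mod_cast h2
  by_cases hm2 : m = 1
  · have h4 : x < 2 := by
      rw [hm2] at hxm
      norm_num at hxm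
      linarith
    have h5 : (1 : ℝ) ≤ (3 * (k : ℝ) + 2) * (1 / x) := by
      rw [mul_one_div, le_div_iff₀ hx0]
      have : (0 : ℝ) ≤ k := Nat.cast_nonneg k
      linarith
    exact (h1 N).trans h5
  · obtain ⟨n, hn⟩ : ∃ n, m = n + 2 := ⟨m - 2, by omega⟩
    have h6 : (n + 2) ^ C ≤ N := by
      refine le_trans ?_ hpow
      rw [hn]
      exact Nat.pow_le_pow_right (by omega) (by omega)
    refine (h n N h6).trans ?_
    have hmn : (m : ℝ) = n + 2 := by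
      rw [hn]
      push_cast
      ring
    have hn0 : (0 : ℝ) < (n : ℝ) + 1 := by positivity
    have hk0 : (0 : ℝ) ≤ k := Nat.cast_nonneg k
    have hn00 : (0 : ℝ) ≤ (n : ℝ) := Nat.cast_nonneg n
    rw [mul_one_div, div_le_div_iff₀ hn0 hx0]
    have h7 : x ≤ 3 * ((n : ℝ) + 1) := by
      rw [hmn] at hxm
      linarith
    have h8 : (k : ℝ) * x ≤ k * (3 * ((n : ℝ) + 1)) := mul_le_mul_of_nonneg_left h7 hk0
    nlinarith

end Pool.Agent.helper92.K4H
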